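import Mathlib

set_option autoImplicit false

namespace Pool.Agent.Results.MP_3ff21c_al.HomomorphismProblem

open FreeGroup

universe u v w

section FreeWords

variable {X : Type u}

/-- the group element of a letter-or-empty label -/
def val : Option (X × Bool) → FreeGroup X
  | none => 1
  | some x => mk [x]

theorem red_cons_split {x : X × Bool} {u L : List (X × Bool)} (h : Red u L) :
    ∀ {w : List (X × Bool)}, u = x :: w → (∃ w', L = x :: w' ∧ Red w w') ∨
      ∃ w1 w2, w = w1 ++ w2 ∧ Red w1 [(x.1, !x.2)] ∧ Red w2 L := by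
  induction h using Relation.ReflTransGen.head_induction_on with
  | refl =>
    intro w hw
    exact Or.inl ⟨w, hw, Red.refl⟩
  | @head a c hac hcL ih =>
    intro w hw
    subst hw
    obtain ⟨x1, x2⟩ := x
    rcases Red.Step.cons_left_iff.1 hac with ⟨w3, hw3, rfl⟩ | hw
    · rcases ih rfl with ⟨w', hL, hr⟩ | ⟨w1, w2, hw12, hr1, hr2⟩
      · exact Or.inl ⟨w', hL, Relation.ReflTransGen.head hw3 hr⟩
      · subst hw12
        have hr : Red w (w1 ++ w2) := Relation.ReflTransGen.single hw3
        obtain ⟨v1, v2, hv, hv1, hv2⟩ := Red.to_append_iff.1 hr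
        exact Or.inr ⟨v1, v2, hv, hv1.trans hr1, hv2.trans hr2⟩
    · exact Or.inr ⟨[(x1, !x2)], c, by simpa using hw, Red.refl, hcL⟩

theorem val_injective : Function.Injective (val : Option (X × Bool) → FreeGroup X) := by
  intro a b h
  cases a with
  | none =>
    cases b with
    | none => rfl
    | some y =>
      exfalso
      simp only [val, one_eq_mk] at h
      obtain ⟨L, h1, h2⟩ := Red.exact.1 h
      rw [Red.singleton_iff.1 h2] at h1
      rcases Relation.ReflTransGen.cases_head h1 with h3 | ⟨c, hc, -⟩
      · cases h3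
      · exact Red.not_step_nil hc
  | some x =>
    cases b with
    | none =>
      exfalso
      simp only [val, one_eq_mk] at h
      obtain ⟨L, h1, h2⟩ := Red.exact.1 h
      rw [Red.singleton_iff.1 h1] at h2
      rcases Relation.ReflTransGen.cases_head h2 with h3 | ⟨c, hc, -⟩
      · cases h3
      · exact Red.not_step_nil hc
    | some y =>
      simp only [val] at h
      obtain ⟨L, h1, h2⟩ := Red.exact.1 h
      rw [Red.singleton_iff.1 h1] at h2
      have := Red.singleton_iff.1 h2
      simp at this
      rw [this]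

/-- The triangulation property of words over a free basis. -/
theorem triangulate (o f : Option (X × Bool)) (w' : List (X × Bool))
    (h : mk (o.toList ++ w') = val f) :
    (∃ f2, mk w' = val f2) ∨
      ∃ w1 w2, w' = w1 ++ w2 ∧ w1 ≠ [] ∧ w2 ≠ [] ∧ mk (o.toList ++ w1) = 1 ∧ mk w2 = val f := by
  cases o with
  | none => exact Or.inl ⟨f, by simpa using h⟩
  | some x =>
    have hx : mk (x :: w') = mk [x] * mk w' := by simp
    have hinv : (mk [x])⁻¹ = mk [(x.1, !x.2)] := by simp [invRev]
    simp only [Option.toList_some, List.cons_append, List.nil_append] at h ⊢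
    cases f with
    | none =>
      left
      refine ⟨some (x.1, !x.2), ?_⟩
      simp only [val] at h ⊢
      rw [← hinv, eq_inv_iff_mul_eq_one]
      rw [hx] at h
      exact mul_eq_one_comm.1 h
    | some y =>
      by_cases hxy : y = x
      · subst hxy
        left
        refine ⟨none, ?_⟩
        simp only [val] at h ⊢
        rw [hx] at h
        exact mul_eq_left.1 h
      · right
        simp only [val] at h
        obtain ⟨L, h1, h2⟩ := Red.exact.1 h
        rw [Red.singleton_iff.1 h2] at h1
        rcases red_cons_split h1 rfl with ⟨w'', hL, -⟩ | ⟨w1, w2, hw, hr1, hr2⟩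
        · exfalso
          apply hxy
          simpa using (List.cons.inj hL).1
        · have hmk1 : mk w1 = mk [(x.1, !x.2)] := Red.exact.2 ⟨_, hr1, Red.refl⟩
          have hmk2 : mk w2 = mk [y] := Red.exact.2 ⟨_, hr2, Red.refl⟩
          refine ⟨w1, w2, hw, ?_, ?_, ?_, hmk2⟩
          · rintro rfl
            rcases Relation.ReflTransGen.cases_head hr1 with h3 | ⟨c, hc, -⟩
            · cases h3
            · exact Red.not_step_nil hc
          · rintro rfl
            rcases Relation.ReflTransGen.cases_head hr2 with h3 | ⟨c, hc, -⟩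
            · cases h3
            · exact Red.not_step_nil hc
          · rw [← List.singleton_append, ← mul_mk, hmk1, ← hinv, mul_inv_cancel]

end FreeWords

section Chains

variable {σ : Type u} {X : Type v} {W : Type w}

/-- `Chain P ms Q`: the moves `ms` form a path from `P` to `Q` -/
def Chain : σ → List (σ × Option (X × Bool) × σ × List W) → σ → Prop
  | P, [], Q => P = Q
  | P, m :: ms, Q => m.1 = P ∧ Chain m.2.2.1 ms Q

/-- label of a path -/
def lab (ms : List (σ × Option (X × Bool) × σ × List W)) : List (X × Bool) :=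
  ms.flatMap fun m => m.2.1.toList

/-- output of a path -/
def out (ms : List (σ × Option (X × Bool) × σ × List W)) : List W :=
  ms.flatMap fun m => m.2.2.2

theorem chain_append {ms1 ms2 : List (σ × Option (X × Bool) × σ × List W)} {P Q : σ} :
    Chain P (ms1 ++ ms2) Q ↔ ∃ R, Chain P ms1 R ∧ Chain R ms2 Q := by
  induction ms1 generalizing P with
  | nil => simp [Chain]
  | cons m ms ih => simp [Chain, ih, and_assoc]

theorem lab_append (ms1 ms2 : List (σ × Option (X × Bool) × σ × List W)) :
    lab (ms1 ++ ms2) = lab ms1 ++ lab ms2 := by simp [lab]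

theorem out_append (ms1 ms2 : List (σ × Option (X × Bool) × σ × List W)) :
    out (ms1 ++ ms2) = out ms1 ++ out ms2 := by simp [out]

theorem lab_split {ms : List (σ × Option (X × Bool) × σ × List W)} :
    ∀ {w1 w2 : List (X × Bool)}, lab ms = w1 ++ w2 →
      ∃ ms1 ms2, ms = ms1 ++ ms2 ∧ lab ms1 = w1 ∧ lab ms2 = w2 := by
  induction ms with
  | nil =>
    intro w1 w2 h
    have : w1 = [] ∧ w2 = [] := by simpa [lab] using h.symm
    exact ⟨[], [], rfl, by simp [lab, this.1], by simp [lab, this.2]⟩
  | cons m ms ih =>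
    intro w1 w2 h
    have hl : lab (m :: ms) = m.2.1.toList ++ lab ms := by simp [lab]
    rw [hl] at h
    cases hm : m.2.1 with
    | none =>
      rw [hm] at h
      obtain ⟨ms1, ms2, h1, h2, h3⟩ := ih (by simpa using h)
      exact ⟨m :: ms1, ms2, by simp [h1], by simp [lab, hm] at h2 ⊢; exact h2, h3⟩
    | some x =>
      rw [hm] at h
      cases w1 with
      | nil =>
        exact ⟨[], m :: ms, rfl, rfl, by rw [hl, hm, h]; rfl⟩
      | cons y w1 =>
        simp only [Option.toList_some, List.cons_append, List.nil_append, List.cons.injEq] at h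
        obtain ⟨ms1, ms2, h1, h2, h3⟩ := ih h.2
        refine ⟨m :: ms1, ms2, by simp [h1], ?_, h3⟩
        have : lab (m :: ms1) = m.2.1.toList ++ lab ms1 := by simp [lab]
        rw [this, hm, h2, h.1]; rfl

/-- Soundness of a table of entries. -/
theorem table_sound (mv : List (σ × Option (X × Bool) × σ × List W))
    {G : Type*} [Group G] (ev : List W → G) (hev : ∀ a b, ev (a ++ b) = ev a * ev b)
    (T : σ → Option (X × Bool) → σ → Option G → Prop)
    (h1 : ∀ m ∈ mv, ∃ v, T m.1 m.2.1 m.2.2.1 v ∧ ∀ g, v = some g → g = ev m.2.2.2)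
    (h2 : ∀ P f1 R v1 f2 Q v2 f, T P f1 R v1 → T R f2 Q v2 → val f1 * val f2 = val f →
      ∃ v, T P f Q v ∧ ∀ g, v = some g → ∃ g1 g2, v1 = some g1 ∧ v2 = some g2 ∧ g = g1 * g2) :
    ∀ (n : ℕ) (ms : List (σ × Option (X × Bool) × σ × List W)), ms.length = n → ms ≠ [] →
      (∀ m ∈ ms, m ∈ mv) → ∀ P Q, Chain P ms Q → ∀ f, mk (lab ms) = val f →
      ∃ v, T P f Q v ∧ ∀ g, v = some g → g = ev (out ms) := by
  intro n
  induction n using Nat.strong_induction_on with
  | _ n ih =>
  intro ms hn hne hmem P Q hch f hf
  cases ms with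
  | nil => exact absurd rfl hne
  | cons m ms' =>
    cases ms' with
    | nil =>
      obtain ⟨rfl, hQ⟩ := hch
      have hQ' : m.2.2.1 = Q := hQ
      subst hQ'
      have hlab : lab [m] = m.2.1.toList := by simp [lab]
      have hout : out [m] = m.2.2.2 := by simp [out]
      have hval : val m.2.1 = val f := by
        rw [← hf, hlab]
        cases m.2.1 <;> simp [val, one_eq_mk]
      have hf' : m.2.1 = f := val_injective hval
      subst hf'
      rw [hout]
      exact h1 m (hmem m (by simp))
    | cons m2 ms'' =>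
      -- general composition step
      have key : ∀ (msa msb : List (σ × Option (X × Bool) × σ × List W)) (f1 f2 : Option (X × Bool)),
          m :: m2 :: ms'' = msa ++ msb → msa ≠ [] → msb ≠ [] → mk (lab msa) = val f1 →
          mk (lab msb) = val f2 →
          ∃ v, T P f Q v ∧ ∀ g, v = some g → g = ev (out (m :: m2 :: ms'')) := by
        intro msa msb f1 f2 hsplit ha hb hla hlb
        rw [hsplit] at hch hmem hf ⊢
        obtain ⟨R, hc1, hc2⟩ := chain_append.1 hch
        have hlen : msa.length + msb.length = n := by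
          rw [← hn, hsplit, List.length_append]
        have hapos : 0 < msa.length := List.length_pos_iff.2 ha
        have hbpos : 0 < msb.length := List.length_pos_iff.2 hb
        obtain ⟨v1, hv1, hv1'⟩ := ih msa.length (by omega) msa rfl ha
          (fun x hx => hmem x (List.mem_append_left _ hx)) P R hc1 f1 hla
        obtain ⟨v2, hv2, hv2'⟩ := ih msb.length (by omega) msb rfl hb
          (fun x hx => hmem x (List.mem_append_right _ hx)) R Q hc2 f2 hlb
        have hmul : val f1 * val f2 = val f := by
          rw [← hla, ← hlb, ← hf, lab_append, mul_mk]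
        obtain ⟨v, hv, hv'⟩ := h2 P f1 R v1 f2 Q v2 f hv1 hv2 hmul
        refine ⟨v, hv, fun g hg => ?_⟩
        obtain ⟨g1, g2, hg1, hg2, hgg⟩ := hv' g hg
        rw [hgg, hv1' g1 hg1, hv2' g2 hg2, out_append, hev]
      have hl : lab (m :: m2 :: ms'') = m.2.1.toList ++ lab (m2 :: ms'') := by simp [lab]
      rw [hl] at hf
      rcases triangulate m.2.1 f (lab (m2 :: ms'')) hf with ⟨f2, hf2⟩ | ⟨w1, w2, hw, hw1, hw2, hm1, hm2⟩
      · refine key [m] (m2 :: ms'') m.2.1 f2 rfl (by simp) (by simp) ?_ hf2
        have hlab : lab [m] = m.2.1.toList := by simp [lab]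
        rw [hlab]
        cases m.2.1 <;> simp [val, one_eq_mk]
      · obtain ⟨msa, msb, hs, hsa, hsb⟩ := lab_split hw
        refine key (m :: msa) msb none f (by rw [hs]; rfl) (by simp) ?_ ?_ ?_
        · rintro rfl
          exact hw2 (by rw [← hsb]; simp [lab])
        · have : lab (m :: msa) = m.2.1.toList ++ lab msa := by simp [lab]
          rw [this, hsa]
          exact hm1
        · rw [hsb]; exact hm2

end Chains

section Certificates

variable {σ : Type u} {r : ℕ} {A : Type v} {G : Type w} [Group G]

/-- The value in a group `G` of a word in the letters `x i` and their inverses. -/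
def wordVal {ι : Type*} {K : Type*} [Group K] (x : ι → K) (l : List (ι × Bool)) : K :=
  (l.map fun y => if y.2 then x y.1 else (x y.1)⁻¹).prod

theorem wordVal_nil {ι : Type*} {K : Type*} [Group K] (x : ι → K) : wordVal x [] = 1 := rfl

theorem wordVal_append {ι : Type*} {K : Type*} [Group K] (x : ι → K) (a b : List (ι × Bool)) :
    wordVal x (a ++ b) = wordVal x a * wordVal x b := by simp [wordVal]

theorem wordVal_invRev {ι : Type*} {K : Type*} [Group K] (x : ι → K) (a : List (ι × Bool)) :
    wordVal x (invRev a) = (wordVal x a)⁻¹ := by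
  induction a with
  | nil => simp [wordVal]
  | cons y a ih =>
    have h1 : wordVal x (y :: a) = wordVal x [y] * wordVal x a := by
      rw [← wordVal_append]; rfl
    rw [invRev_cons, wordVal_append, ih, h1, mul_inv_rev]
    congr 1
    obtain ⟨i, b⟩ := y
    cases b <;> simp [wordVal, invRev]

/-- checkable certificate of triviality of all outputs -/
def Cert (s0 s1 : σ) (mv : List (σ × Option (Fin r × Bool) × σ × List (A × Bool)))
    (T : List (σ × Option (Fin r × Bool) × σ × Option (List (A × Bool))))
    (Z : List (List (A × Bool))) : Prop :=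
  (∀ m ∈ mv, ∃ t ∈ T, t.1 = m.1 ∧ t.2.1 = m.2.1 ∧ t.2.2.1 = m.2.2.1 ∧
      (t.2.2.2 = none ∨ (t.2.2.2.getD [] ++ invRev m.2.2.2) ∈ Z)) ∧
  (∀ t1 ∈ T, ∀ t2 ∈ T, ∀ f ∈ (Finset.univ : Finset (Option (Fin r × Bool))).toList,
      t1.2.2.1 = t2.1 → val t1.2.1 * val t2.2.1 = val f →
      ∃ t ∈ T, t.1 = t1.1 ∧ t.2.1 = f ∧ t.2.2.1 = t2.2.2.1 ∧
        (t.2.2.2 = none ∨ (t1.2.2.2 ≠ none ∧ t2.2.2.2 ≠ none ∧
          (t.2.2.2.getD [] ++ invRev (t1.2.2.2.getD [] ++ t2.2.2.2.getD [])) ∈ Z))) ∧
  (∀ t ∈ T, t.1 = s0 → t.2.1 = none → t.2.2.1 = s1 → t.2.2.2 ≠ none ∧ t.2.2.2.getD [] ∈ Z)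

/-- all closed runs have trivial output -/
def Good (s0 s1 : σ) (x : A → G)
    (mv : List (σ × Option (Fin r × Bool) × σ × List (A × Bool))) : Prop :=
  ∀ ms : List (σ × Option (Fin r × Bool) × σ × List (A × Bool)), (∀ m ∈ ms, m ∈ mv) →
    Chain s0 ms s1 → mk (lab ms) = 1 → wordVal x (out ms) = 1

theorem good_of_cert (s0 s1 : σ) (x : A → G)
    (mv : List (σ × Option (Fin r × Bool) × σ × List (A × Bool)))
    (T : List (σ × Option (Fin r × Bool) × σ × Option (List (A × Bool))))
    (Z : List (List (A × Bool))) (hZ : ∀ z ∈ Z, wordVal x z = 1) (hC : Cert s0 s1 mv T Z) :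
    Good s0 s1 x mv := by
  intro ms hms hch hlab
  by_cases hne : ms = []
  · subst hne; rfl
  obtain ⟨hC1, hC2, hC3⟩ := hC
  have hsound := table_sound mv (wordVal x) (wordVal_append x)
    (fun P f Q v => ∃ t ∈ T, t.1 = P ∧ t.2.1 = f ∧ t.2.2.1 = Q ∧ v = t.2.2.2.map (wordVal x))
    (by
      intro m hm
      obtain ⟨t, ht, h1, h2, h3, h4⟩ := hC1 m hm
      refine ⟨_, ⟨t, ht, h1, h2, h3, rfl⟩, ?_⟩
      intro g hg
      rcases h4 with h4 | h4
      · rw [h4] at hg; simp at hg
      · cases hv : t.2.2.2 with
        | none => rw [hv] at hg; simp at hg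
        | some z =>
          rw [hv] at hg h4
          simp only [Option.map_some, Option.some.injEq] at hg
          simp only [Option.getD_some] at h4
          have := hZ _ h4
          rw [wordVal_append, wordVal_invRev, mul_inv_eq_one] at this
          rw [← hg, this])
    (by
      rintro P f1 R v1 f2 Q v2 f ⟨t1, ht1, rfl, rfl, rfl, rfl⟩ ⟨t2, ht2, h21, rfl, rfl, rfl⟩ hmul
      obtain ⟨t, ht, h1, h2, h3, h4⟩ := hC2 t1 ht1 t2 ht2 f (by simp) h21.symm hmul
      refine ⟨_, ⟨t, ht, h1, h2, h3, rfl⟩, ?_⟩
      intro g hg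
      rcases h4 with h4 | ⟨h4, h5, h6⟩
      · rw [h4] at hg; simp at hg
      · obtain ⟨z1, hz1⟩ := Option.ne_none_iff_exists'.1 h4
        obtain ⟨z2, hz2⟩ := Option.ne_none_iff_exists'.1 h5
        refine ⟨wordVal x z1, wordVal x z2, by rw [hz1]; rfl, by rw [hz2]; rfl, ?_⟩
        cases hv : t.2.2.2 with
        | none => rw [hv] at hg; simp at hg
        | some z =>
          rw [hv] at hg h6
          rw [hz1, hz2] at h6
          simp only [Option.map_some, Option.some.injEq] at hg
          simp only [Option.getD_some] at h6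
          have := hZ _ h6
          rw [wordVal_append, wordVal_invRev, mul_inv_eq_one, wordVal_append] at this
          rw [← hg, this])
  obtain ⟨v, ⟨t, ht, h1, h2, h3, rfl⟩, h4⟩ := hsound ms.length ms rfl hne hms s0 s1 hch none
    (by rw [hlab]; rfl)
  obtain ⟨h5, h6⟩ := hC3 t ht h1 h2 h3
  obtain ⟨z, hz⟩ := Option.ne_none_iff_exists'.1 h5
  rw [hz] at h4 h6
  have := h4 (wordVal x z) rfl
  rw [← this]
  exact hZ z h6

theorem cert_of_good (s0 s1 : σ) (x : A → G)
    (mv : List (σ × Option (Fin r × Bool) × σ × List (A × Bool))) (hg : Good s0 s1 x mv) :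
    ∃ (T : List (σ × Option (Fin r × Bool) × σ × Option (List (A × Bool))))
      (Z : List (List (A × Bool))), (∀ z ∈ Z, wordVal x z = 1) ∧ Cert s0 s1 mv T Z := by
  classical
  set Real : σ → Option (Fin r × Bool) → σ → Prop := fun P f Q =>
    ∃ ms : List (σ × Option (Fin r × Bool) × σ × List (A × Bool)), ms ≠ [] ∧ (∀ m ∈ ms, m ∈ mv) ∧
      Chain P ms Q ∧ mk (lab ms) = val f with hReal
  set Useful : σ → Option (Fin r × Bool) → σ → Prop := fun P f Q =>
    ∃ pre post : List (σ × Option (Fin r × Bool) × σ × List (A × Bool)),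
      (∀ m ∈ pre, m ∈ mv) ∧ (∀ m ∈ post, m ∈ mv) ∧
      Chain s0 pre P ∧ Chain Q post s1 ∧ mk (lab pre) * val f * mk (lab post) = 1 with hUseful
  -- well-definedness
  have hwd : ∀ P f Q, Useful P f Q → ∀ ms ms' : List (σ × Option (Fin r × Bool) × σ × List (A × Bool)),
      (∀ m ∈ ms, m ∈ mv) → (∀ m ∈ ms', m ∈ mv) → Chain P ms Q → Chain P ms' Q →
      mk (lab ms) = val f → mk (lab ms') = val f → wordVal x (out ms) = wordVal x (out ms') := by
    rintro P f Q ⟨pre, post, hpre, hpost, hc1, hc2, hm⟩ ms ms' h1 h2 h3 h4 h5 h6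
    have aux : ∀ ms : List (σ × Option (Fin r × Bool) × σ × List (A × Bool)),
        (∀ m ∈ ms, m ∈ mv) → Chain P ms Q → mk (lab ms) = val f →
        wordVal x (out pre) * wordVal x (out ms) * wordVal x (out post) = 1 := by
      intro ms h1 h3 h5
      have := hg (pre ++ ms ++ post) (by
        intro m hm
        simp only [List.mem_append] at hm
        rcases hm with (hm | hm) | hm
        · exact hpre m hm
        · exact h1 m hm
        · exact hpost m hm) (chain_append.2 ⟨Q, chain_append.2 ⟨P, hc1, h3⟩, hc2⟩)
        (by rw [lab_append, lab_append, ← mul_mk, ← mul_mk, h5, hm])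
      rwa [out_append, out_append, wordVal_append, wordVal_append] at this
    have e1 := aux ms h1 h3 h5
    have e2 := aux ms' h2 h4 h6
    have e3 := e1.trans e2.symm
    exact mul_left_cancel (mul_right_cancel e3)
  set St : List σ := mv.map (fun m => m.1) ++ mv.map (fun m => m.2.2.1) with hSt
  have hsrc : ∀ P ms Q, Chain P ms Q → ms ≠ [] → (∀ m ∈ ms, m ∈ mv) → P ∈ St := by
    intro P ms Q hc hne hmem
    cases ms with
    | nil => exact absurd rfl hne
    | cons m ms =>
      rw [hSt, List.mem_append]
      left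
      rw [← hc.1]
      exact List.mem_map.2 ⟨m, hmem m (by simp), rfl⟩
  have htgt : ∀ P ms Q, Chain P ms Q → ms ≠ [] → (∀ m ∈ ms, m ∈ mv) → Q ∈ St := by
    intro P ms
    induction ms generalizing P with
    | nil => intro Q _ hne; exact absurd rfl hne
    | cons m ms ih =>
      intro Q hc _ hmem
      cases ms with
      | nil =>
        have : m.2.2.1 = Q := hc.2
        rw [hSt, List.mem_append]
        right
        rw [← this]
        exact List.mem_map.2 ⟨m, hmem m (by simp), rfl⟩
      | cons m' ms =>
        exact ih m.2.2.1 Q hc.2 (by simp) (fun y hy => hmem y (List.mem_cons_of_mem _ hy))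
  set value : σ → Option (Fin r × Bool) → σ → Option (List (A × Bool)) := fun P f Q =>
    if h : Real P f Q then (if Useful P f Q then some (out h.choose) else none) else none with hvalue
  set T : List (σ × Option (Fin r × Bool) × σ × Option (List (A × Bool))) :=
    (St ×ˢ ((Finset.univ : Finset (Option (Fin r × Bool))).toList ×ˢ St)).filterMap
      (fun t => if Real t.1 t.2.1 t.2.2 then some (t.1, t.2.1, t.2.2, value t.1 t.2.1 t.2.2)
        else none) with hT
  have hmemT : ∀ P f Q, Real P f Q → (P, f, Q, value P f Q) ∈ T := by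
    intro P f Q hR
    obtain ⟨ms, hne, hmem, hc, -⟩ := id hR
    rw [hT, List.mem_filterMap]
    refine ⟨(P, f, Q), ?_, ?_⟩
    · simp only [List.mem_product]
      exact ⟨hsrc P ms Q hc hne hmem, by simp, htgt P ms Q hc hne hmem⟩
    · simp [hR]
  have hTmem : ∀ t ∈ T, Real t.1 t.2.1 t.2.2.1 ∧ t.2.2.2 = value t.1 t.2.1 t.2.2.1 := by
    intro t ht
    rw [hT, List.mem_filterMap] at ht
    obtain ⟨⟨P, f, Q⟩, -, h⟩ := ht
    by_cases hR : Real P f Q
    · simp only [hR, if_true, Option.some.injEq] at h
      rw [← h]
      exact ⟨hR, rfl⟩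
    · simp [hR] at h
  -- the value computes the output of every run
  have hval : ∀ P f Q, Useful P f Q → ∀ ms : List (σ × Option (Fin r × Bool) × σ × List (A × Bool)),
      ms ≠ [] → (∀ m ∈ ms, m ∈ mv) → Chain P ms Q → mk (lab ms) = val f →
      ∃ z, value P f Q = some z ∧ wordVal x z = wordVal x (out ms) := by
    intro P f Q hU ms hne hmem hc hl
    have hR : Real P f Q := ⟨ms, hne, hmem, hc, hl⟩
    refine ⟨out hR.choose, by simp only [hvalue, hR, hU, if_true, dif_pos], ?_⟩
    obtain ⟨-, h2, h3, h4⟩ := hR.choose_spec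
    exact hwd P f Q hU _ _ h2 hmem h3 hc h4 hl
  have hvalnone : ∀ P f Q, ¬ Useful P f Q → value P f Q = none := by
    intro P f Q hU
    simp only [hvalue, hU, if_false, dite_eq_ite, ite_self]
  set Z : List (List (A × Bool)) :=
    (((mv ×ˢ T).map (fun p => p.2.2.2.2.getD [] ++ invRev p.1.2.2.2)) ++
      ((T ×ˢ (T ×ˢ T)).map (fun p => p.1.2.2.2.getD [] ++
        invRev (p.2.1.2.2.2.getD [] ++ p.2.2.2.2.2.getD []))) ++
      (T.map (fun t => t.2.2.2.getD []))).filter (fun z => wordVal x z = 1) with hZ
  refine ⟨T, Z, ?_, ?_, ?_, ?_⟩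
  · intro z hz
    rw [hZ, List.mem_filter] at hz
    simpa using hz.2
  · intro m hm
    have hch : Chain m.1 [m] m.2.2.1 := ⟨rfl, rfl⟩
    have hlab : lab [m] = m.2.1.toList := by simp [lab]
    have hout : out [m] = m.2.2.2 := by simp [out]
    have hl : mk (lab [m]) = val m.2.1 := by
      rw [hlab]; cases m.2.1 <;> simp [val, one_eq_mk]
    have hmem : ∀ y ∈ [m], y ∈ mv := by simpa using hm
    have hR : Real m.1 m.2.1 m.2.2.1 := ⟨[m], by simp, hmem, hch, hl⟩
    refine ⟨_, hmemT _ _ _ hR, rfl, rfl, rfl, ?_⟩
    by_cases hU : Useful m.1 m.2.1 m.2.2.1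
    · right
      rw [hZ, List.mem_filter]
      constructor
      · simp only [List.mem_append]
        left; left
        exact List.mem_map.2 ⟨(m, (m.1, m.2.1, m.2.2.1, value m.1 m.2.1 m.2.2.1)),
          by simp only [List.mem_product]; exact ⟨hm, hmemT _ _ _ hR⟩, rfl⟩
      · obtain ⟨z, hz1, hz2⟩ := hval _ _ _ hU [m] (by simp) hmem hch hl
        simp only [hz1, Option.getD_some, wordVal_append, wordVal_invRev, hz2, hout,
          mul_inv_cancel, decide_true]
    · left; exact hvalnone _ _ _ hU
  · intro t1 ht1 t2 ht2 f _ h12 hmul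
    obtain ⟨⟨ms1, hne1, hmem1, hc1, hl1⟩, hv1⟩ := hTmem t1 ht1
    obtain ⟨⟨ms2, hne2, hmem2, hc2, hl2⟩, hv2⟩ := hTmem t2 ht2
    have hc : Chain t1.1 (ms1 ++ ms2) t2.2.2.1 := chain_append.2 ⟨t1.2.2.1, hc1, by rw [h12]; exact hc2⟩
    have hmem : ∀ m ∈ ms1 ++ ms2, m ∈ mv := by
      intro m hm
      rcases List.mem_append.1 hm with hm | hm
      · exact hmem1 m hm
      · exact hmem2 m hm
    have hl : mk (lab (ms1 ++ ms2)) = val f := by
      rw [lab_append, ← mul_mk, hl1, hl2, hmul]
    have hR : Real t1.1 f t2.2.2.1 := ⟨ms1 ++ ms2, by simp [hne1], hmem, hc, hl⟩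
    refine ⟨_, hmemT _ _ _ hR, rfl, rfl, rfl, ?_⟩
    by_cases hU : Useful t1.1 f t2.2.2.1
    · right
      obtain ⟨pre, post, hpre, hpost, hcpre, hcpost, hone⟩ := id hU
      have hU1 : Useful t1.1 t1.2.1 t1.2.2.1 := by
        refine ⟨pre, ms2 ++ post, hpre, ?_, hcpre, chain_append.2 ⟨_, by rw [h12]; exact hc2, hcpost⟩, ?_⟩
        · intro m hm
          rcases List.mem_append.1 hm with hm | hm
          · exact hmem2 m hm
          · exact hpost m hm
        · rw [lab_append, ← mul_mk, hl2, ← hone, ← hmul]; group
      have hU2 : Useful t2.1 t2.2.1 t2.2.2.1 := by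
        refine ⟨pre ++ ms1, post, ?_, hpost, chain_append.2 ⟨_, hcpre, by rw [← h12]; exact hc1⟩, hcpost, ?_⟩
        · intro m hm
          rcases List.mem_append.1 hm with hm | hm
          · exact hpre m hm
          · exact hmem1 m hm
        · rw [lab_append, ← mul_mk, hl1, ← hone, ← hmul]; group
      obtain ⟨z1, hz1, hz1'⟩ := hval _ _ _ hU1 ms1 hne1 hmem1 hc1 hl1
      obtain ⟨z2, hz2, hz2'⟩ := hval _ _ _ hU2 ms2 hne2 hmem2 hc2 hl2
      obtain ⟨z, hz, hz'⟩ := hval _ _ _ hU (ms1 ++ ms2) (by simp [hne1]) hmem hc hl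
      refine ⟨by rw [hv1, hz1]; simp, by rw [hv2, hz2]; simp, ?_⟩
      rw [hZ, List.mem_filter]
      constructor
      · simp only [List.mem_append]
        left; right
        exact List.mem_map.2 ⟨((t1.1, f, t2.2.2.1, value t1.1 f t2.2.2.1), (t1, t2)),
          by simp only [List.mem_product]; exact ⟨hmemT _ _ _ hR, ht1, ht2⟩, rfl⟩
      · rw [hv1, hv2]
        simp only [hz1, hz2, hz, Option.getD_some, wordVal_append, wordVal_invRev, hz1', hz2', hz',
          out_append, mul_inv_cancel, decide_true]
    · left; exact hvalnone _ _ _ hU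
  · intro t ht h1 h2 h3
    obtain ⟨⟨ms, hne, hmem, hc, hl⟩, hv⟩ := hTmem t ht
    rw [h1, h3] at hc
    rw [h2] at hl
    have hU : Useful s0 none s1 := ⟨[], [], by simp, by simp, rfl, rfl, by simp [lab, val, ← one_eq_mk]⟩
    obtain ⟨z, hz, hz'⟩ := hval _ _ _ hU ms hne hmem hc hl
    rw [h1, h2, h3, hz] at hv
    refine ⟨by rw [hv]; simp, ?_⟩
    rw [hZ, List.mem_filter]
    constructor
    · simp only [List.mem_append]
      right
      exact List.mem_map.2 ⟨t, ht, rfl⟩
    · rw [hv]
      simp only [Option.getD_some, hz']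
      rw [hg ms hmem hc hl]
      simp

end Certificates

section Computability

open Primrec

theorem computablePred_and {α : Type*} [Primcodable α] {p q : α → Prop} (hp : ComputablePred p)
    (hq : ComputablePred q) : ComputablePred fun a => p a ∧ q a := by
  obtain ⟨f, hf, rfl⟩ := ComputablePred.computable_iff.1 hp
  obtain ⟨g, hg, rfl⟩ := ComputablePred.computable_iff.1 hq
  refine ComputablePred.computable_iff.2 ⟨fun a => f a && g a, ?_, by simp⟩
  exact Primrec.and.to_comp.comp hf hg

theorem computablePred_comp {α β : Type*} [Primcodable α] [Primcodable β] {p : β → Prop}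
    (hp : ComputablePred p) {f : α → β} (hf : Computable f) : ComputablePred fun a => p (f a) := by
  obtain ⟨g, hg, rfl⟩ := ComputablePred.computable_iff.1 hp
  exact ComputablePred.computable_iff.2 ⟨fun a => g (f a), hg.comp hf, rfl⟩

theorem computablePred_forall_mem {α : Type*} [Primcodable α] {p : α → Prop}
    (hp : ComputablePred p) : ComputablePred fun l : List α => ∀ a ∈ l, p a := by
  obtain ⟨f, hf, rfl⟩ := ComputablePred.computable_iff.1 hp
  refine ComputablePred.computable_iff.2
    ⟨fun l => Nat.rec true (fun k b => b && ((l[k]?).map f).getD true) l.length, ?_, ?_⟩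
  · refine Computable.nat_rec (f := fun l : List α => l.length) (g := fun _ => true)
      (h := fun l p => p.2 && ((l[p.1]?).map f).getD true) Computable.list_length
      (Computable.const true) ?_
    refine Primrec.and.to_comp.comp (Computable.snd.comp Computable.snd) ?_
    refine Computable.option_getD ?_ (Computable.const true)
    refine Computable.option_map (Computable.list_getElem?.comp Computable.fst
      (Computable.fst.comp Computable.snd)) ?_
    exact hf.comp Computable.snd
  · funext l
    apply propext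
    have key : ∀ n, n ≤ l.length →
        ((Nat.rec true (fun k b => b && ((l[k]?).map f).getD true) n : Bool) = true ↔
          ∀ k (hk : k < l.length), k < n → f l[k] = true) := by
      intro n
      induction n with
      | zero => intro _; simp
      | succ n ih =>
        intro hn
        have hn' : n < l.length := hn
        simp only [Bool.and_eq_true]
        rw [ih (Nat.le_of_succ_le hn)]
        rw [List.getElem?_eq_getElem hn']
        simp only [Option.map_some, Option.getD_some]
        constructor
        · rintro ⟨h1, h2⟩ k hk hkn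
          rcases Nat.lt_succ_iff_lt_or_eq.1 hkn with h | h
          · exact h1 k hk h
          · subst h; exact h2
        · intro h
          exact ⟨fun k hk hkn => h k hk (Nat.lt_succ_of_lt hkn), h n hn' (Nat.lt_succ_self n)⟩
    rw [key l.length le_rfl]
    constructor
    · intro h k hk _
      exact h _ (List.getElem_mem hk)
    · intro h a ha
      obtain ⟨k, hk, rfl⟩ := List.getElem_of_mem ha
      exact h k hk hk

theorem rePred_exists {α β : Type*} [Primcodable α] [Primcodable β] {R : α → β → Prop}
    (h : ComputablePred fun p : α × β => R p.1 p.2) : REPred fun a => ∃ b, R a b := by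
  obtain ⟨f, hf, hfR⟩ := ComputablePred.computable_iff.1 h
  have hR : ∀ a b, R a b ↔ f (a, b) = true := fun a b => by
    have := congrFun hfR (a, b)
    simpa using this
  let g : α → ℕ → Option Unit := fun a n =>
    (Encodable.decode (α := β) n).bind fun b => bif f (a, b) then some () else none
  have hg : Computable₂ g := by
    refine Computable.option_bind (Computable.decode.comp Computable.snd) ?_
    refine Computable.cond (hf.comp ((Computable.fst.comp Computable.fst).pair Computable.snd)) ?_ ?_
    · exact Computable.const _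
    · exact Computable.const _
  have h1 : Partrec fun a => Nat.rfindOpt (g a) := Partrec.rfindOpt hg
  refine (Partrec.dom_re h1).of_eq fun a => ?_
  rw [Nat.rfindOpt_dom]
  constructor
  · rintro ⟨n, u, hu⟩
    simp only [g, Option.mem_def, Option.bind_eq_some_iff] at hu
    obtain ⟨b, -, hb⟩ := hu
    refine ⟨b, (hR a b).2 ?_⟩
    cases hfb : f (a, b) with
    | true => rfl
    | false => rw [hfb] at hb; simp at hb
  · rintro ⟨b, hb⟩
    refine ⟨Encodable.encode b, (), ?_⟩
    simp [g, Encodable.encodek, (hR a b).1 hb]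

theorem primrec_invRev {X : Type*} [Primcodable X] :
    Primrec (invRev : List (X × Bool) → List (X × Bool)) := by
  refine list_reverse.comp (list_map (f := fun l : List (X × Bool) => l)
    (g := fun _ y => (y.1, !y.2)) .id ?_)
  exact (Primrec.fst.comp Primrec.snd).pair (Primrec.not.comp (Primrec.snd.comp Primrec.snd))

theorem primrec_reduce {X : Type*} [Primcodable X] [DecidableEq X] :
    Primrec (reduce : List (X × Bool) → List (X × Bool)) := by
  have h1 : Primrec₂ (fun (_ : List (X × Bool)) (p : (X × Bool) × List (X × Bool)) =>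
      (List.casesOn p.2 [p.1] fun hd tl =>
        if p.1.1 = hd.1 ∧ p.1.2 = !hd.2 then tl else p.1 :: hd :: tl : List (X × Bool))) := by
    refine list_casesOn
      (f := fun q : List (X × Bool) × ((X × Bool) × List (X × Bool)) => q.2.2)
      (g := fun q => [q.2.1])
      (h := fun q p => if q.2.1.1 = p.1.1 ∧ q.2.1.2 = !p.1.2 then p.2 else q.2.1 :: p.1 :: p.2)
      (Primrec.snd.comp Primrec.snd)
      (list_cons.comp (Primrec.fst.comp Primrec.snd) (Primrec.const [])) ?_
    refine Primrec.ite ?_ (Primrec.snd.comp Primrec.snd) ?_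
    · refine PrimrecPred.and ?_ ?_
      · exact Primrec.eq.comp
          (Primrec.fst.comp (Primrec.fst.comp (Primrec.snd.comp Primrec.fst)))
          (Primrec.fst.comp (Primrec.fst.comp Primrec.snd))
      · exact Primrec.eq.comp
          (Primrec.snd.comp (Primrec.fst.comp (Primrec.snd.comp Primrec.fst)))
          (Primrec.not.comp (Primrec.snd.comp (Primrec.fst.comp Primrec.snd)))
    · exact list_cons.comp (Primrec.fst.comp (Primrec.snd.comp Primrec.fst))
        (list_cons.comp (Primrec.fst.comp Primrec.snd) (Primrec.snd.comp Primrec.snd))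
  have h2 := list_foldr (f := fun l : List (X × Bool) => l) .id (Primrec.const []) h1
  refine h2.of_eq fun l => ?_
  induction l with
  | nil => rfl
  | cons y l ih =>
    rw [List.foldr_cons, ih, reduce.cons]

variable {σ : Type u} [Primcodable σ] {r : ℕ} {A : Type v} [Primcodable A]

theorem primrecPred_chain (s0 s1 : σ) :
    PrimrecPred fun ms : List (σ × Option (Fin r × Bool) × σ × List (A × Bool)) =>
      Chain s0 ms s1 := by
  classical
  have h1 : Primrec fun ms : List (σ × Option (Fin r × Bool) × σ × List (A × Bool)) =>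
      ms.foldl (fun (o : Option σ) m => if o = some m.1 then some m.2.2.1 else none) (some s0) := by
    refine list_foldl (f := fun ms : List (σ × Option (Fin r × Bool) × σ × List (A × Bool)) => ms)
      (g := fun _ => some s0)
      (h := fun _ p => if p.1 = some p.2.1 then some p.2.2.2.1 else none)
      .id (Primrec.const _) ?_
    refine Primrec.ite ?_ ?_ (Primrec.const none)
    · exact Primrec.eq.comp (Primrec.fst.comp Primrec.snd)
        (option_some.comp (Primrec.fst.comp (Primrec.snd.comp Primrec.snd)))
    · exact option_some.comp (Primrec.fst.comp (Primrec.snd.comp (Primrec.snd.comp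
        (Primrec.snd.comp Primrec.snd))))
  have h2 : PrimrecPred fun ms : List (σ × Option (Fin r × Bool) × σ × List (A × Bool)) =>
      ms.foldl (fun (o : Option σ) m => if o = some m.1 then some m.2.2.1 else none) (some s0)
        = some s1 := Primrec.eq.comp h1 (Primrec.const _)
  refine h2.of_eq fun ms => ?_
  have hnone : ∀ ms : List (σ × Option (Fin r × Bool) × σ × List (A × Bool)),
      ms.foldl (fun (o : Option σ) m => if o = some m.1 then some m.2.2.1 else none) none = none := by
    intro ms
    induction ms with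
    | nil => rfl
    | cons m ms ih => simpa using ih
  induction ms generalizing s0 with
  | nil => simp [Chain]
  | cons m ms ih =>
    simp only [List.foldl_cons, Chain]
    by_cases hm : m.1 = s0
    · subst hm
      simp only [if_true, true_and]
      exact ih m.2.2.1 (by
        refine list_foldl (f := fun ms : List (σ × Option (Fin r × Bool) × σ × List (A × Bool)) => ms)
          (g := fun _ => some m.2.2.1)
          (h := fun _ p => if p.1 = some p.2.1 then some p.2.2.2.1 else none)
          .id (Primrec.const _) ?_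
        refine Primrec.ite ?_ ?_ (Primrec.const none)
        · exact Primrec.eq.comp (Primrec.fst.comp Primrec.snd)
            (option_some.comp (Primrec.fst.comp (Primrec.snd.comp Primrec.snd)))
        · exact option_some.comp (Primrec.fst.comp (Primrec.snd.comp (Primrec.snd.comp
            (Primrec.snd.comp Primrec.snd))))) (by
        refine Primrec.eq.comp ?_ (Primrec.const _)
        refine list_foldl (f := fun ms : List (σ × Option (Fin r × Bool) × σ × List (A × Bool)) => ms)
          (g := fun _ => some m.2.2.1)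
          (h := fun _ p => if p.1 = some p.2.1 then some p.2.2.2.1 else none)
          .id (Primrec.const _) ?_
        refine Primrec.ite ?_ ?_ (Primrec.const none)
        · exact Primrec.eq.comp (Primrec.fst.comp Primrec.snd)
            (option_some.comp (Primrec.fst.comp (Primrec.snd.comp Primrec.snd)))
        · exact option_some.comp (Primrec.fst.comp (Primrec.snd.comp (Primrec.snd.comp
            (Primrec.snd.comp Primrec.snd)))))
    · have : ¬ (some s0 = some m.1) := fun h => hm (Option.some.inj h).symm
      rw [if_neg this, hnone]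
      simp [hm]

theorem primrec_lab :
    Primrec (lab : List (σ × Option (Fin r × Bool) × σ × List (A × Bool)) → List (Fin r × Bool)) := by
  refine list_flatMap .id ?_
  exact optionToList.comp (Primrec.fst.comp (Primrec.snd.comp Primrec.snd))

theorem primrec_out :
    Primrec (out : List (σ × Option (Fin r × Bool) × σ × List (A × Bool)) → List (A × Bool)) := by
  refine list_flatMap .id ?_
  exact Primrec.snd.comp (Primrec.snd.comp (Primrec.snd.comp Primrec.snd))

theorem primrecPred_cert (s0 s1 : σ) :
    PrimrecPred fun p : List (σ × Option (Fin r × Bool) × σ × List (A × Bool)) ×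
      (List (σ × Option (Fin r × Bool) × σ × Option (List (A × Bool))) ×
        List (List (A × Bool))) => Cert s0 s1 p.1 p.2.1 p.2.2 := by
  classical
  -- membership relation
  have hmem : PrimrecRel fun (L : List (List (A × Bool))) (z : List (A × Bool)) => z ∈ L := by
    refine (PrimrecRel.exists_mem_list (R := fun a b : List (A × Bool) => a = b)
      Primrec.eq).of_eq fun L z => ?_
    simp
  have hval : PrimrecPred fun q : Option (Fin r × Bool) × Option (Fin r × Bool) ×
      Option (Fin r × Bool) => val q.1 * val q.2.1 = val q.2.2 :=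
    ⟨Classical.decPred _, Primrec.dom_finite _⟩
  -- accessors for entries
  have e1 : Primrec fun t : σ × Option (Fin r × Bool) × σ × Option (List (A × Bool)) => t.1 :=
    Primrec.fst
  have e2 : Primrec fun t : σ × Option (Fin r × Bool) × σ × Option (List (A × Bool)) => t.2.1 :=
    Primrec.fst.comp Primrec.snd
  have e3 : Primrec fun t : σ × Option (Fin r × Bool) × σ × Option (List (A × Bool)) => t.2.2.1 :=
    Primrec.fst.comp (Primrec.snd.comp Primrec.snd)
  have e4 : Primrec fun t : σ × Option (Fin r × Bool) × σ × Option (List (A × Bool)) => t.2.2.2 :=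
    Primrec.snd.comp (Primrec.snd.comp Primrec.snd)
  have e5 : Primrec fun t : σ × Option (Fin r × Bool) × σ × Option (List (A × Bool)) =>
      t.2.2.2.getD [] := Primrec.option_getD.comp e4 (Primrec.const [])
  have m1 : Primrec fun t : σ × Option (Fin r × Bool) × σ × List (A × Bool) => t.1 :=
    Primrec.fst
  have m2 : Primrec fun t : σ × Option (Fin r × Bool) × σ × List (A × Bool) => t.2.1 :=
    Primrec.fst.comp Primrec.snd
  have m3 : Primrec fun t : σ × Option (Fin r × Bool) × σ × List (A × Bool) => t.2.2.1 :=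
    Primrec.fst.comp (Primrec.snd.comp Primrec.snd)
  have m4 : Primrec fun t : σ × Option (Fin r × Bool) × σ × List (A × Bool) => t.2.2.2 :=
    Primrec.snd.comp (Primrec.snd.comp Primrec.snd)
  refine PrimrecPred.and ?_ (PrimrecPred.and ?_ ?_)
  · -- moves are covered
    have hR : PrimrecRel fun (t : σ × Option (Fin r × Bool) × σ × Option (List (A × Bool)))
        (c : (σ × Option (Fin r × Bool) × σ × List (A × Bool)) × List (List (A × Bool))) =>
        t.1 = c.1.1 ∧ t.2.1 = c.1.2.1 ∧ t.2.2.1 = c.1.2.2.1 ∧
          (t.2.2.2 = none ∨ (t.2.2.2.getD [] ++ invRev c.1.2.2.2) ∈ c.2) := by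
      refine PrimrecPred.and ?_ (PrimrecPred.and ?_ (PrimrecPred.and ?_ (PrimrecPred.or ?_ ?_)))
      · exact Primrec.eq.comp (e1.comp Primrec.fst) (m1.comp (Primrec.fst.comp Primrec.snd))
      · exact Primrec.eq.comp (e2.comp Primrec.fst) (m2.comp (Primrec.fst.comp Primrec.snd))
      · exact Primrec.eq.comp (e3.comp Primrec.fst) (m3.comp (Primrec.fst.comp Primrec.snd))
      · exact Primrec.eq.comp (e4.comp Primrec.fst) (Primrec.const none)
      · refine hmem.comp (Primrec.snd.comp Primrec.snd) ?_
        exact list_append.comp (e5.comp Primrec.fst)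
          (primrec_invRev.comp (m4.comp (Primrec.fst.comp Primrec.snd)))
    have hS : PrimrecRel fun (m : σ × Option (Fin r × Bool) × σ × List (A × Bool))
        (c : List (σ × Option (Fin r × Bool) × σ × Option (List (A × Bool))) ×
          List (List (A × Bool))) => ∃ t ∈ c.1, t.1 = m.1 ∧ t.2.1 = m.2.1 ∧ t.2.2.1 = m.2.2.1 ∧
            (t.2.2.2 = none ∨ (t.2.2.2.getD [] ++ invRev m.2.2.2) ∈ c.2) :=
      hR.exists_mem_list.comp (Primrec.fst.comp Primrec.snd)
        (Primrec.fst.pair (Primrec.snd.comp Primrec.snd))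
    exact hS.forall_mem_list.comp Primrec.fst Primrec.snd
  · -- closure under composition
    have hR : PrimrecRel fun (t : σ × Option (Fin r × Bool) × σ × Option (List (A × Bool)))
        (c : (σ × Option (Fin r × Bool) × σ × Option (List (A × Bool))) ×
          (σ × Option (Fin r × Bool) × σ × Option (List (A × Bool))) ×
          Option (Fin r × Bool) × List (List (A × Bool))) =>
        t.1 = c.1.1 ∧ t.2.1 = c.2.2.1 ∧ t.2.2.1 = c.2.1.2.2.1 ∧
          (t.2.2.2 = none ∨ (c.1.2.2.2 ≠ none ∧ c.2.1.2.2.2 ≠ none ∧
          (t.2.2.2.getD [] ++ invRev (c.1.2.2.2.getD [] ++ c.2.1.2.2.2.getD [])) ∈ c.2.2.2)) := by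
      refine PrimrecPred.and ?_ (PrimrecPred.and ?_ (PrimrecPred.and ?_ (PrimrecPred.or ?_
        (PrimrecPred.and ?_ (PrimrecPred.and ?_ ?_)))))
      · exact Primrec.eq.comp (e1.comp Primrec.fst) (e1.comp (Primrec.fst.comp Primrec.snd))
      · exact Primrec.eq.comp (e2.comp Primrec.fst)
          (Primrec.fst.comp (Primrec.snd.comp (Primrec.snd.comp Primrec.snd)))
      · exact Primrec.eq.comp (e3.comp Primrec.fst)
          (e3.comp (Primrec.fst.comp (Primrec.snd.comp Primrec.snd)))
      · exact Primrec.eq.comp (e4.comp Primrec.fst) (Primrec.const none)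
      · exact (Primrec.eq.comp (e4.comp (Primrec.fst.comp Primrec.snd)) (Primrec.const none)).not
      · exact (Primrec.eq.comp (e4.comp (Primrec.fst.comp (Primrec.snd.comp Primrec.snd)))
          (Primrec.const none)).not
      · refine hmem.comp (Primrec.snd.comp (Primrec.snd.comp (Primrec.snd.comp Primrec.snd))) ?_
        refine list_append.comp (e5.comp Primrec.fst) (primrec_invRev.comp ?_)
        exact list_append.comp (e5.comp (Primrec.fst.comp Primrec.snd))
          (e5.comp (Primrec.fst.comp (Primrec.snd.comp Primrec.snd)))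
    -- quantify over t and f
    have hF : PrimrecRel fun (f : Option (Fin r × Bool))
        (c : (σ × Option (Fin r × Bool) × σ × Option (List (A × Bool))) ×
          (σ × Option (Fin r × Bool) × σ × Option (List (A × Bool))) ×
          (List (σ × Option (Fin r × Bool) × σ × Option (List (A × Bool))) ×
            List (List (A × Bool)))) =>
        c.1.2.2.1 = c.2.1.1 → val c.1.2.1 * val c.2.1.2.1 = val f →
        ∃ t ∈ c.2.2.1, t.1 = c.1.1 ∧ t.2.1 = f ∧ t.2.2.1 = c.2.1.2.2.1 ∧
          (t.2.2.2 = none ∨ (c.1.2.2.2 ≠ none ∧ c.2.1.2.2.2 ≠ none ∧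
          (t.2.2.2.getD [] ++ invRev (c.1.2.2.2.getD [] ++ c.2.1.2.2.2.getD [])) ∈ c.2.2.2)) := by
      have h1 : PrimrecPred fun p : Option (Fin r × Bool) ×
        ((σ × Option (Fin r × Bool) × σ × Option (List (A × Bool))) ×
          (σ × Option (Fin r × Bool) × σ × Option (List (A × Bool))) ×
          (List (σ × Option (Fin r × Bool) × σ × Option (List (A × Bool))) ×
            List (List (A × Bool)))) => ¬ (p.2.1.2.2.1 = p.2.2.1.1) :=
        (Primrec.eq.comp (e3.comp (Primrec.fst.comp Primrec.snd))
          (e1.comp (Primrec.fst.comp (Primrec.snd.comp Primrec.snd)))).not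
      have h2 : PrimrecPred fun p : Option (Fin r × Bool) ×
        ((σ × Option (Fin r × Bool) × σ × Option (List (A × Bool))) ×
          (σ × Option (Fin r × Bool) × σ × Option (List (A × Bool))) ×
          (List (σ × Option (Fin r × Bool) × σ × Option (List (A × Bool))) ×
            List (List (A × Bool)))) => ¬ (val p.2.1.2.1 * val p.2.2.1.2.1 = val p.1) :=
        (hval.comp ((e2.comp (Primrec.fst.comp Primrec.snd)).pair
          ((e2.comp (Primrec.fst.comp (Primrec.snd.comp Primrec.snd))).pair Primrec.fst))).not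
      have h3 := hR.exists_mem_list.comp
        (α := Option (Fin r × Bool) ×
        ((σ × Option (Fin r × Bool) × σ × Option (List (A × Bool))) ×
          (σ × Option (Fin r × Bool) × σ × Option (List (A × Bool))) ×
          (List (σ × Option (Fin r × Bool) × σ × Option (List (A × Bool))) ×
            List (List (A × Bool)))))
        (f := fun p => p.2.2.2.1) (g := fun p => (p.2.1, p.2.2.1, p.1, p.2.2.2.2))
        (Primrec.fst.comp (Primrec.snd.comp (Primrec.snd.comp Primrec.snd)))
        ((Primrec.fst.comp Primrec.snd).pair ((Primrec.fst.comp (Primrec.snd.comp Primrec.snd)).pair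
          (Primrec.fst.pair (Primrec.snd.comp (Primrec.snd.comp (Primrec.snd.comp Primrec.snd))))))
      refine (h1.or (h2.or h3)).of_eq fun p => ?_
      constructor
      · rintro (h | h | h)
        · intro h'; exact absurd h' h
        · intro _ h'; exact absurd h' h
        · intro _ _; exact h
      · intro h
        by_cases h' : p.2.1.2.2.1 = p.2.2.1.1
        · by_cases h'' : val p.2.1.2.1 * val p.2.2.1.2.1 = val p.1
          · exact Or.inr (Or.inr (h h' h''))
          · exact Or.inr (Or.inl h'')
        · exact Or.inl h'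
    have hG : PrimrecRel fun (t2 : σ × Option (Fin r × Bool) × σ × Option (List (A × Bool)))
        (c : (σ × Option (Fin r × Bool) × σ × Option (List (A × Bool))) ×
          (List (σ × Option (Fin r × Bool) × σ × Option (List (A × Bool))) ×
            List (List (A × Bool)))) =>
        ∀ f ∈ (Finset.univ : Finset (Option (Fin r × Bool))).toList,
        c.1.2.2.1 = t2.1 → val c.1.2.1 * val t2.2.1 = val f →
        ∃ t ∈ c.2.1, t.1 = c.1.1 ∧ t.2.1 = f ∧ t.2.2.1 = t2.2.2.1 ∧
          (t.2.2.2 = none ∨ (c.1.2.2.2 ≠ none ∧ t2.2.2.2 ≠ none ∧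
          (t.2.2.2.getD [] ++ invRev (c.1.2.2.2.getD [] ++ t2.2.2.2.getD [])) ∈ c.2.2)) :=
      hF.forall_mem_list.comp (Primrec.const _)
        ((Primrec.fst.comp Primrec.snd).pair (Primrec.fst.pair (Primrec.snd.comp Primrec.snd)))
    have hH : PrimrecRel fun (t1 : σ × Option (Fin r × Bool) × σ × Option (List (A × Bool)))
        (c : List (σ × Option (Fin r × Bool) × σ × Option (List (A × Bool))) ×
            List (List (A × Bool))) =>
        ∀ t2 ∈ c.1, ∀ f ∈ (Finset.univ : Finset (Option (Fin r × Bool))).toList,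
        t1.2.2.1 = t2.1 → val t1.2.1 * val t2.2.1 = val f →
        ∃ t ∈ c.1, t.1 = t1.1 ∧ t.2.1 = f ∧ t.2.2.1 = t2.2.2.1 ∧
          (t.2.2.2 = none ∨ (t1.2.2.2 ≠ none ∧ t2.2.2.2 ≠ none ∧
          (t.2.2.2.getD [] ++ invRev (t1.2.2.2.getD [] ++ t2.2.2.2.getD [])) ∈ c.2)) :=
      hG.forall_mem_list.comp (Primrec.fst.comp Primrec.snd) (Primrec.fst.pair Primrec.snd)
    exact hH.forall_mem_list.comp (Primrec.fst.comp Primrec.snd) Primrec.snd
  · have hR : PrimrecRel fun (t : σ × Option (Fin r × Bool) × σ × Option (List (A × Bool)))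
        (c : List (List (A × Bool))) =>
        t.1 = s0 → t.2.1 = none → t.2.2.1 = s1 → t.2.2.2 ≠ none ∧ t.2.2.2.getD [] ∈ c := by
      have h1 : PrimrecPred fun p : (σ × Option (Fin r × Bool) × σ × Option (List (A × Bool))) ×
        List (List (A × Bool)) => ¬ (p.1.1 = s0) :=
        (Primrec.eq.comp (e1.comp Primrec.fst) (Primrec.const _)).not
      have h2 : PrimrecPred fun p : (σ × Option (Fin r × Bool) × σ × Option (List (A × Bool))) ×
        List (List (A × Bool)) => ¬ (p.1.2.1 = none) :=
        (Primrec.eq.comp (e2.comp Primrec.fst) (Primrec.const _)).not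
      have h3 : PrimrecPred fun p : (σ × Option (Fin r × Bool) × σ × Option (List (A × Bool))) ×
        List (List (A × Bool)) => ¬ (p.1.2.2.1 = s1) :=
        (Primrec.eq.comp (e3.comp Primrec.fst) (Primrec.const _)).not
      have h4 : PrimrecPred fun p : (σ × Option (Fin r × Bool) × σ × Option (List (A × Bool))) ×
        List (List (A × Bool)) => p.1.2.2.2 ≠ none ∧ p.1.2.2.2.getD [] ∈ p.2 :=
        ((Primrec.eq.comp (e4.comp Primrec.fst) (Primrec.const _)).not).and
          (hmem.comp Primrec.snd (e5.comp Primrec.fst))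
      refine (h1.or (h2.or (h3.or h4))).of_eq fun p => ?_
      tauto
    exact hR.forall_mem_list.comp (Primrec.fst.comp Primrec.snd) (Primrec.snd.comp Primrec.snd)

theorem good_computable {G : Type w} [Group G] (x : A → G)
    (hx : ComputablePred fun l : List (A × Bool) => wordVal x l = 1) (s0 s1 : σ) :
    ComputablePred fun mv : List (σ × Option (Fin r × Bool) × σ × List (A × Bool)) =>
      Good s0 s1 x mv := by
  classical
  rw [ComputablePred.computable_iff_re_compl_re']
  constructor
  · have h1 : ComputablePred fun p : List (σ × Option (Fin r × Bool) × σ × List (A × Bool)) ×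
      (List (σ × Option (Fin r × Bool) × σ × Option (List (A × Bool))) ×
        List (List (A × Bool))) => (∀ z ∈ p.2.2, wordVal x z = 1) ∧ Cert s0 s1 p.1 p.2.1 p.2.2 := by
      refine computablePred_and ?_ (primrecPred_cert s0 s1).computablePred
      exact computablePred_comp (computablePred_forall_mem hx)
        (Computable.snd.comp Computable.snd)
    refine (rePred_exists (R := fun (mv : List (σ × Option (Fin r × Bool) × σ × List (A × Bool)))
      (c : List (σ × Option (Fin r × Bool) × σ × Option (List (A × Bool))) ×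
        List (List (A × Bool))) => (∀ z ∈ c.2, wordVal x z = 1) ∧ Cert s0 s1 mv c.1 c.2)
      h1).of_eq fun mv => ?_
    constructor
    · rintro ⟨⟨T, Z⟩, h, h'⟩
      exact good_of_cert s0 s1 x mv T Z h h'
    · intro h
      obtain ⟨T, Z, h1, h2⟩ := cert_of_good s0 s1 x mv h
      exact ⟨(T, Z), h1, h2⟩
  · have h1 : ComputablePred fun p : List (σ × Option (Fin r × Bool) × σ × List (A × Bool)) ×
        List (σ × Option (Fin r × Bool) × σ × List (A × Bool)) =>
        ((∀ m ∈ p.2, m ∈ p.1) ∧ Chain s0 p.2 s1 ∧ reduce (lab p.2) = []) ∧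
          ¬ wordVal x (out p.2) = 1 := by
      refine computablePred_and (PrimrecPred.computablePred ?_) ?_
      · refine PrimrecPred.and ?_ (PrimrecPred.and ?_ ?_)
        · have hmem : PrimrecRel fun (a : σ × Option (Fin r × Bool) × σ × List (A × Bool))
              (L : List (σ × Option (Fin r × Bool) × σ × List (A × Bool))) => a ∈ L := by
            refine ((PrimrecRel.exists_mem_list
              (R := fun a b : σ × Option (Fin r × Bool) × σ × List (A × Bool) => a = b)
              Primrec.eq).comp Primrec.snd Primrec.fst).of_eq fun p => ?_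
            simp
          exact hmem.forall_mem_list.comp Primrec.snd Primrec.fst
        · exact (primrecPred_chain s0 s1).comp Primrec.snd
        · exact Primrec.eq.comp (primrec_reduce.comp (primrec_lab.comp Primrec.snd))
            (Primrec.const [])
      · exact (computablePred_comp hx (primrec_out.to_comp.comp Computable.snd)).not
    refine (rePred_exists (R := fun mv ms => ((∀ m ∈ ms, m ∈ mv) ∧ Chain s0 ms s1 ∧
      reduce (lab ms) = []) ∧ ¬ wordVal x (out ms) = 1) h1).of_eq fun mv => ?_
    have hred : ∀ l : List (Fin r × Bool), reduce l = [] ↔ mk l = 1 := by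
      intro l
      rw [one_eq_mk]
      constructor
      · intro h
        rw [← reduce.self (L := l), h]
      · intro h
        have := reduce.exact (L₁ := l) (L₂ := [])
        have h2 := congrArg toWord h
        simpa using h2
    unfold Good
    push Not
    constructor
    · rintro ⟨ms, ⟨h1, h2, h3⟩, h4⟩
      exact ⟨ms, h1, h2, (hred _).1 h3, h4⟩
    · rintro ⟨ms, h1, h2, h3, h4⟩
      exact ⟨ms, ⟨h1, h2, (hred _).2 h3⟩, h4⟩

end Computability

section Transducer

variable {n N r : ℕ} {A : Type v}

/-- run of a transducer with transition function `nx` and output function `lm` -/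
def run (nx : Fin N → Fin n × Bool → Fin N) (lm : Fin N → Fin n × Bool → List (Fin r × Bool)) :
    Fin N → List (Fin n × Bool) → Fin N × List (Fin r × Bool)
  | p, [] => (p, [])
  | p, y :: u => ((run nx lm (nx p y) u).1, lm p y ++ (run nx lm (nx p y) u).2)

theorem run_foldl (nx : Fin N → Fin n × Bool → Fin N)
    (lm : Fin N → Fin n × Bool → List (Fin r × Bool)) (u : List (Fin n × Bool)) :
    ∀ (p : Fin N) (w : List (Fin r × Bool)),
      u.foldl (fun s y => (nx s.1 y, s.2 ++ lm s.1 y)) (p, w) =
        ((run nx lm p u).1, w ++ (run nx lm p u).2) := by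
  induction u with
  | nil => intro p w; simp [run]
  | cons y u ih => intro p w; simp [run, ih]

theorem run_append (nx : Fin N → Fin n × Bool → Fin N)
    (lm : Fin N → Fin n × Bool → List (Fin r × Bool)) (u v : List (Fin n × Bool)) :
    ∀ (p : Fin N), run nx lm p (u ++ v) =
      ((run nx lm (run nx lm p u).1 v).1, (run nx lm p u).2 ++ (run nx lm (run nx lm p u).1 v).2) := by
  induction u with
  | nil => intro p; simp [run]
  | cons y u ih => intro p; simp [run, ih]

/-- moves that read a pending word -/
def sufMoves (b : Bool) (q : Fin N) : List (Fin r × Bool) →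
    List ((List (Fin r × Bool) × (Bool × Fin N)) × Option (Fin r × Bool) ×
      (List (Fin r × Bool) × (Bool × Fin N)) × List (A × Bool))
  | [] => []
  | x :: w => ((x :: w, (b, q)), some x, (w, (b, q)), []) :: sufMoves b q w

/-- moves realising one generator -/
def edgeMoves (nx : Fin N → Fin n × Bool → Fin N) (lm : Fin N → Fin n × Bool → List (Fin r × Bool))
    (b : Bool) (p : Fin N) (u : List (Fin n × Bool)) (g : List (A × Bool)) :
    List ((List (Fin r × Bool) × (Bool × Fin N)) × Option (Fin r × Bool) ×
      (List (Fin r × Bool) × (Bool × Fin N)) × List (A × Bool)) :=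
  (([], (b, p)), none, ((run nx lm p u).2, (b, (run nx lm p u).1)), g) ::
    sufMoves b (run nx lm p u).1 (run nx lm p u).2

/-- all moves belonging to an input -/
def moves (nx : Fin N → Fin n × Bool → Fin N) (lm : Fin N → Fin n × Bool → List (Fin r × Bool))
    (S : List (List (Fin n × Bool) × List (A × Bool))) :
    List ((List (Fin r × Bool) × (Bool × Fin N)) × Option (Fin r × Bool) ×
      (List (Fin r × Bool) × (Bool × Fin N)) × List (A × Bool)) :=
  (List.finRange N).flatMap fun p =>
    (([], (false, p)), none, ([], (true, p)), []) ::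
      S.flatMap fun s => edgeMoves nx lm false p s.1 s.2 ++
        edgeMoves nx lm true p (invRev s.1) (invRev s.2)

theorem chain_sufMoves (b : Bool) (q : Fin N) (w : List (Fin r × Bool)) :
    Chain (w, (b, q)) (sufMoves (A := A) b q w) ([], (b, q)) ∧
      lab (sufMoves (A := A) b q w) = w ∧ out (sufMoves (A := A) b q w) = [] := by
  induction w with
  | nil => exact ⟨rfl, rfl, rfl⟩
  | cons x w ih =>
    refine ⟨⟨rfl, ih.1⟩, ?_, ?_⟩
    · have := ih.2.1
      simp only [lab, sufMoves, List.flatMap_cons, Option.toList_some, List.cons_append,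
        List.nil_append] at this ⊢
      rw [this]
    · have := ih.2.2
      simp only [out, sufMoves, List.flatMap_cons, List.nil_append] at this ⊢
      exact this

theorem chain_edgeMoves (nx : Fin N → Fin n × Bool → Fin N)
    (lm : Fin N → Fin n × Bool → List (Fin r × Bool))
    (b : Bool) (p : Fin N) (u : List (Fin n × Bool)) (g : List (A × Bool)) :
    Chain ([], (b, p)) (edgeMoves nx lm b p u g) ([], (b, (run nx lm p u).1)) ∧
      lab (edgeMoves nx lm b p u g) = (run nx lm p u).2 ∧ out (edgeMoves nx lm b p u g) = g := by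
  obtain ⟨h1, h2, h3⟩ := chain_sufMoves (A := A) b (run nx lm p u).1 (run nx lm p u).2
  refine ⟨⟨rfl, h1⟩, ?_, ?_⟩
  · simp only [lab, edgeMoves, List.flatMap_cons, Option.toList_none, List.nil_append] at h2 ⊢
    exact h2
  · simp only [out, edgeMoves, List.flatMap_cons] at h3 ⊢
    rw [h3]; simp

theorem edge_subset (nx : Fin N → Fin n × Bool → Fin N)
    (lm : Fin N → Fin n × Bool → List (Fin r × Bool))
    (S : List (List (Fin n × Bool) × List (A × Bool))) (p : Fin N) {s} (hs : s ∈ S) :
    (∀ m ∈ edgeMoves nx lm false p s.1 s.2, m ∈ moves nx lm S) ∧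
      (∀ m ∈ edgeMoves nx lm true p (invRev s.1) (invRev s.2), m ∈ moves nx lm S) := by
  constructor
  · intro m hm
    refine List.mem_flatMap.2 ⟨p, List.mem_finRange p, List.mem_cons_of_mem _ ?_⟩
    exact List.mem_flatMap.2 ⟨s, hs, List.mem_append_left _ hm⟩
  · intro m hm
    refine List.mem_flatMap.2 ⟨p, List.mem_finRange p, List.mem_cons_of_mem _ ?_⟩
    exact List.mem_flatMap.2 ⟨s, hs, List.mem_append_right _ hm⟩

theorem mem_sufMoves (b : Bool) (q : Fin N) (w : List (Fin r × Bool))
    {m} (hm : m ∈ sufMoves (A := A) b q w) :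
    ∃ (x : Fin r × Bool) (w' : List (Fin r × Bool)) (b' : Bool) (q' : Fin N),
      m = ((x :: w', (b', q')), some x, (w', (b', q')), []) := by
  induction w with
  | nil => simp [sufMoves] at hm
  | cons x w ih =>
    rcases List.mem_cons.1 hm with h | h
    · exact ⟨x, w, b, q, h⟩
    · exact ih h

theorem mem_moves (nx : Fin N → Fin n × Bool → Fin N)
    (lm : Fin N → Fin n × Bool → List (Fin r × Bool))
    (S : List (List (Fin n × Bool) × List (A × Bool))) {m} (hm : m ∈ moves nx lm S) :
    (∃ p, m = (([], (false, p)), none, ([], (true, p)), [])) ∨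
    (∃ p, ∃ s ∈ S, m = (([], (false, p)), none, ((run nx lm p s.1).2, (false, (run nx lm p s.1).1)), s.2)) ∨
    (∃ p, ∃ s ∈ S, m = (([], (true, p)), none, ((run nx lm p (invRev s.1)).2,
      (true, (run nx lm p (invRev s.1)).1)), invRev s.2)) ∨
    (∃ (x : Fin r × Bool) (w' : List (Fin r × Bool)) (b' : Bool) (q' : Fin N),
      m = ((x :: w', (b', q')), some x, (w', (b', q')), [])) := by
  obtain ⟨p, -, hp⟩ := List.mem_flatMap.1 hm
  rcases List.mem_cons.1 hp with h | h
  · exact Or.inl ⟨p, h⟩
  · obtain ⟨s, hs, h⟩ := List.mem_flatMap.1 h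
    rcases List.mem_append.1 h with h | h
    · rcases List.mem_cons.1 h with h | h
      · exact Or.inr (Or.inl ⟨p, s, hs, h⟩)
      · exact Or.inr (Or.inr (Or.inr (mem_sufMoves _ _ _ h)))
    · rcases List.mem_cons.1 h with h | h
      · exact Or.inr (Or.inr (Or.inl ⟨p, s, hs, h⟩))
      · exact Or.inr (Or.inr (Or.inr (mem_sufMoves _ _ _ h)))

/-- From runs to words. -/
theorem words_of_chain (nx : Fin N → Fin n × Bool → Fin N)
    (lm : Fin N → Fin n × Bool → List (Fin r × Bool))
    (S : List (List (Fin n × Bool) × List (A × Bool))) (c0 : Fin N)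
    (ms : List ((List (Fin r × Bool) × (Bool × Fin N)) × Option (Fin r × Bool) ×
      (List (Fin r × Bool) × (Bool × Fin N)) × List (A × Bool))) :
    ∀ (w : List (Fin r × Bool)) (b : Bool) (p : Fin N), (∀ m ∈ ms, m ∈ moves nx lm S) →
      Chain (w, (b, p)) ms ([], (true, c0)) →
      ∃ us vs : List (List (Fin n × Bool) × List (A × Bool)),
        (∀ s ∈ us, s ∈ S) ∧ (∀ s ∈ vs, s ∈ S) ∧ (b = true → us = []) ∧
        (run nx lm p (us.flatMap (fun s => s.1) ++ vs.flatMap (fun s => invRev s.1))).1 = c0 ∧
        lab ms = w ++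
          (run nx lm p (us.flatMap (fun s => s.1) ++ vs.flatMap (fun s => invRev s.1))).2 ∧
        out ms = us.flatMap (fun s => s.2) ++ vs.flatMap (fun s => invRev s.2) := by
  induction ms with
  | nil =>
    intro w b p _ hc
    have h : (w, (b, p)) = (([] : List (Fin r × Bool)), (true, c0)) := hc
    simp only [Prod.mk.injEq] at h
    obtain ⟨rfl, rfl, rfl⟩ := h
    exact ⟨[], [], by simp, by simp, by simp, by simp [run], by simp [lab, run], by simp [out]⟩
  | cons m ms ih =>
    intro w b p hmem hc
    obtain ⟨hm1, hc⟩ := hc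
    have hmem' : ∀ m ∈ ms, m ∈ moves nx lm S := fun y hy => hmem y (List.mem_cons_of_mem _ hy)
    have hl : lab (m :: ms) = m.2.1.toList ++ lab ms := by simp [lab]
    have ho : out (m :: ms) = m.2.2.2 ++ out ms := by simp [out]
    rcases mem_moves nx lm S (hmem m (by simp)) with ⟨p', rfl⟩ | ⟨p', s, hs, rfl⟩ | ⟨p', s, hs, rfl⟩ |
      ⟨x, w', b', q', rfl⟩
    · simp only [Prod.mk.injEq] at hm1
      obtain ⟨rfl, rfl, rfl⟩ := hm1
      obtain ⟨us, vs, h1, h2, h3, h4, h5, h6⟩ := ih _ _ _ hmem' hc
      have hus := h3 rfl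
      subst hus
      refine ⟨[], vs, h1, h2, fun _ => rfl, h4, ?_, ?_⟩
      · rw [hl, h5]; rfl
      · rw [ho, h6]; rfl
    · simp only [Prod.mk.injEq] at hm1
      obtain ⟨rfl, rfl, rfl⟩ := hm1
      obtain ⟨us, vs, h1, h2, h3, h4, h5, h6⟩ := ih _ _ _ hmem' hc
      refine ⟨s :: us, vs, ?_, h2, by simp, ?_, ?_, ?_⟩
      · intro y hy
        rcases List.mem_cons.1 hy with h | h
        · rw [h]; exact hs
        · exact h1 y h
      · rw [List.flatMap_cons, List.append_assoc, run_append]
        exact h4
      · rw [List.flatMap_cons, List.append_assoc, run_append, hl, h5]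
        simp
      · rw [ho, h6, List.flatMap_cons, List.append_assoc]
    · simp only [Prod.mk.injEq] at hm1
      obtain ⟨rfl, rfl, rfl⟩ := hm1
      obtain ⟨us, vs, h1, h2, h3, h4, h5, h6⟩ := ih _ _ _ hmem' hc
      have hus := h3 rfl
      subst hus
      simp only [List.flatMap_nil, List.nil_append] at h4 h5 h6
      refine ⟨[], s :: vs, by simp, ?_, fun _ => rfl, ?_, ?_, ?_⟩
      · intro y hy
        rcases List.mem_cons.1 hy with h | h
        · rw [h]; exact hs
        · exact h2 y h
      · simp only [List.flatMap_nil, List.nil_append]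
        rw [List.flatMap_cons, run_append]
        exact h4
      · simp only [List.flatMap_nil, List.nil_append]
        rw [List.flatMap_cons, run_append, hl, h5]
        simp
      · simp only [List.flatMap_nil, List.nil_append]
        rw [ho, h6, List.flatMap_cons]
    · simp only [Prod.mk.injEq] at hm1
      obtain ⟨rfl, rfl, rfl⟩ := hm1
      obtain ⟨us, vs, h1, h2, h3, h4, h5, h6⟩ := ih _ _ _ hmem' hc
      refine ⟨us, vs, h1, h2, h3, h4, ?_, ?_⟩
      · rw [hl, h5]; rfl
      · rw [ho, h6]; rfl

/-- From words to runs. -/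
theorem chain_of_words (nx : Fin N → Fin n × Bool → Fin N)
    (lm : Fin N → Fin n × Bool → List (Fin r × Bool))
    (S : List (List (Fin n × Bool) × List (A × Bool)))
    (us vs : List (List (Fin n × Bool) × List (A × Bool)))
    (hus : ∀ s ∈ us, s ∈ S) (hvs : ∀ s ∈ vs, s ∈ S) (p : Fin N) :
      ∃ ms : List ((List (Fin r × Bool) × (Bool × Fin N)) × Option (Fin r × Bool) ×
      (List (Fin r × Bool) × (Bool × Fin N)) × List (A × Bool)),
        (∀ m ∈ ms, m ∈ moves nx lm S) ∧
        Chain ([], (false, p)) ms ([], (true,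
          (run nx lm p (us.flatMap (fun s => s.1) ++ vs.flatMap (fun s => invRev s.1))).1)) ∧
        lab ms = (run nx lm p (us.flatMap (fun s => s.1) ++ vs.flatMap (fun s => invRev s.1))).2 ∧
        out ms = us.flatMap (fun s => s.2) ++ vs.flatMap (fun s => invRev s.2) := by
  have h2 : ∀ vs : List (List (Fin n × Bool) × List (A × Bool)), (∀ s ∈ vs, s ∈ S) → ∀ p : Fin N,
      ∃ ms : List ((List (Fin r × Bool) × (Bool × Fin N)) × Option (Fin r × Bool) ×
      (List (Fin r × Bool) × (Bool × Fin N)) × List (A × Bool)),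
        (∀ m ∈ ms, m ∈ moves nx lm S) ∧
        Chain ([], (true, p)) ms ([], (true,
          (run nx lm p (vs.flatMap (fun s => invRev s.1))).1)) ∧
        lab ms = (run nx lm p (vs.flatMap (fun s => invRev s.1))).2 ∧
        out ms = vs.flatMap (fun s => invRev s.2) := by
    intro vs
    induction vs with
    | nil => intro _ p; exact ⟨[], by simp, rfl, rfl, rfl⟩
    | cons s vs ih =>
      intro hvs p
      obtain ⟨ms, h1, h2, h3, h4⟩ := ih (fun y hy => hvs y (List.mem_cons_of_mem _ hy))
        (run nx lm p (invRev s.1)).1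
      obtain ⟨e1, e2, e3⟩ := chain_edgeMoves nx lm true p (invRev s.1) (invRev s.2)
      refine ⟨edgeMoves nx lm true p (invRev s.1) (invRev s.2) ++ ms, ?_, ?_, ?_, ?_⟩
      · intro m hm
        rcases List.mem_append.1 hm with h | h
        · exact (edge_subset nx lm S p (hvs s (by simp))).2 m h
        · exact h1 m h
      · rw [List.flatMap_cons, run_append]
        exact chain_append.2 ⟨_, e1, h2⟩
      · rw [List.flatMap_cons, run_append, lab_append, e2, h3]
      · rw [List.flatMap_cons, out_append, e3, h4]
  induction us generalizing p with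
  | nil =>
    obtain ⟨ms, h3, h4, h5, h6⟩ := h2 vs hvs p
    refine ⟨(([], (false, p)), none, ([], (true, p)), []) :: ms, ?_, ?_, ?_, ?_⟩
    · intro m hm
      rcases List.mem_cons.1 hm with h | h
      · rw [h]
        exact List.mem_flatMap.2 ⟨p, List.mem_finRange p, by simp⟩
      · exact h3 m h
    · exact ⟨rfl, h4⟩
    · simp only [lab, List.flatMap_cons, Option.toList_none, List.nil_append,
        List.flatMap_nil] at h5 ⊢
      exact h5
    · simp only [out, List.flatMap_cons, List.nil_append, List.flatMap_nil] at h6 ⊢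
      exact h6
  | cons s us ih =>
    obtain ⟨ms, h3, h4, h5, h6⟩ := ih (fun y hy => hus y (List.mem_cons_of_mem _ hy))
      (run nx lm p s.1).1
    obtain ⟨e1, e2, e3⟩ := chain_edgeMoves nx lm false p s.1 s.2
    refine ⟨edgeMoves nx lm false p s.1 s.2 ++ ms, ?_, ?_, ?_, ?_⟩
    · intro m hm
      rcases List.mem_append.1 hm with h | h
      · exact (edge_subset nx lm S p (hus s (by simp))).1 m h
      · exact h3 m h
    · rw [List.flatMap_cons, List.append_assoc, run_append]
      exact chain_append.2 ⟨_, e1, h4⟩
    · rw [List.flatMap_cons, List.append_assoc, run_append, lab_append, e2, h5]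
    · rw [List.flatMap_cons, out_append, e3, h6, List.append_assoc]

theorem wordVal_flatMap_invRev {ι : Type*} {K : Type*} [Group K] (x : ι → K)
    {β : Type*} (f : β → List (ι × Bool)) (vs : List β) :
    wordVal x (vs.flatMap (fun s => invRev (f s))) = (wordVal x (vs.reverse.flatMap f))⁻¹ := by
  induction vs with
  | nil => simp [wordVal]
  | cons s vs ih =>
    rw [List.flatMap_cons, wordVal_append, ih, wordVal_invRev, List.reverse_cons,
      List.flatMap_append, wordVal_append, mul_inv_rev]
    congr 2
    simp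

/-- The decision problem is equivalent to goodness of the moves. -/
theorem good_iff {H : Type*} [Group H] {G : Type*} [Group G] (h : Fin n → H) (x : A → G)
    (nx : Fin N → Fin n × Bool → Fin N) (lm : Fin N → Fin n × Bool → List (Fin r × Bool))
    (c0 : Fin N)
    (hdata : ∀ u : List (Fin n × Bool),
      wordVal h u = 1 ↔ (run nx lm c0 u).1 = c0 ∧ mk (run nx lm c0 u).2 = 1)
    (S : List (List (Fin n × Bool) × List (A × Bool))) :
    Good ([], (false, c0)) ([], (true, c0)) x (moves nx lm S) ↔
      ∀ us vs : List (List (Fin n × Bool) × List (A × Bool)), (∀ s ∈ us, s ∈ S) →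
        (∀ s ∈ vs, s ∈ S) →
        wordVal h (us.flatMap fun s => s.1) = wordVal h (vs.flatMap fun s => s.1) →
        wordVal x (us.flatMap fun s => s.2) = wordVal x (vs.flatMap fun s => s.2) := by
  constructor
  · intro hg us vs hus hvs heq
    have hvs' : ∀ s ∈ vs.reverse, s ∈ S := fun s hs => hvs s (List.mem_reverse.1 hs)
    obtain ⟨ms, h1, h2, h3, h4⟩ := chain_of_words nx lm S us vs.reverse hus hvs' c0
    have h5 : wordVal h (us.flatMap (fun s => s.1) ++ vs.reverse.flatMap (fun s => invRev s.1))
        = 1 := by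
      rw [wordVal_append, wordVal_flatMap_invRev, List.reverse_reverse, heq, mul_inv_cancel]
    obtain ⟨h6, h7⟩ := (hdata _).1 h5
    rw [h6] at h2
    have := hg ms h1 h2 (by rw [h3]; exact h7)
    rw [h4, wordVal_append, wordVal_flatMap_invRev, List.reverse_reverse, mul_inv_eq_one] at this
    exact this
  · intro hrel ms hmem hc hlab
    obtain ⟨us, vs, hus, hvs, -, h1, h2, h3⟩ := words_of_chain nx lm S c0 ms [] false c0 hmem hc
    rw [h2, List.nil_append] at hlab
    have h4 := (hdata _).2 ⟨h1, hlab⟩
    rw [wordVal_append, wordVal_flatMap_invRev, mul_inv_eq_one] at h4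
    have h5 := hrel us vs.reverse hus (fun s hs => hvs s (List.mem_reverse.1 hs)) h4
    rw [h3, wordVal_append, wordVal_flatMap_invRev, mul_inv_eq_one]
    exact h5

open Primrec in
theorem primrec_moves [Primcodable A] (nx : Fin N → Fin n × Bool → Fin N)
    (lm : Fin N → Fin n × Bool → List (Fin r × Bool)) :
    Primrec (moves nx lm : List (List (Fin n × Bool) × List (A × Bool)) → _) := by
  have hnx : Primrec fun p : Fin N × (Fin n × Bool) => nx p.1 p.2 := Primrec.dom_finite _
  have hlm : Primrec fun p : Fin N × (Fin n × Bool) => lm p.1 p.2 := Primrec.dom_finite _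
  have hrun : Primrec fun p : Fin N × List (Fin n × Bool) => run nx lm p.1 p.2 := by
    have h1 : Primrec fun p : Fin N × List (Fin n × Bool) =>
        p.2.foldl (fun (s : Fin N × List (Fin r × Bool)) y => (nx s.1 y, s.2 ++ lm s.1 y))
          (p.1, []) := by
      refine list_foldl (f := fun p : Fin N × List (Fin n × Bool) => p.2)
        (g := fun p => (p.1, ([] : List (Fin r × Bool))))
        (h := fun _ q => (nx q.1.1 q.2, q.1.2 ++ lm q.1.1 q.2))
        Primrec.snd (Primrec.fst.pair (Primrec.const _)) ?_
      refine Primrec.pair ?_ ?_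
      · exact hnx.comp ((Primrec.fst.comp (Primrec.fst.comp Primrec.snd)).pair
          (Primrec.snd.comp Primrec.snd))
      · exact list_append.comp (Primrec.snd.comp (Primrec.fst.comp Primrec.snd))
          (hlm.comp ((Primrec.fst.comp (Primrec.fst.comp Primrec.snd)).pair
          (Primrec.snd.comp Primrec.snd)))
    refine h1.of_eq fun p => ?_
    rw [run_foldl]
    simp
  have hsuf : Primrec fun p : (Bool × Fin N) × List (Fin r × Bool) =>
      sufMoves (A := A) p.1.1 p.1.2 p.2 := by
    have h1 := list_rec
      (f := fun p : (Bool × Fin N) × List (Fin r × Bool) => p.2)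
      (g := fun _ => ([] : List ((List (Fin r × Bool) × (Bool × Fin N)) × Option (Fin r × Bool) ×
        (List (Fin r × Bool) × (Bool × Fin N)) × List (A × Bool))))
      (h := fun p q => ((q.1 :: q.2.1, p.1), some q.1, (q.2.1, p.1), []) :: q.2.2)
      Primrec.snd (Primrec.const _) ?_
    · refine h1.of_eq fun p => ?_
      obtain ⟨⟨b, q⟩, w⟩ := p
      induction w with
      | nil => rfl
      | cons x w ih =>
        simp only [sufMoves]
        simp only at ih
        rw [← ih]
    · refine list_cons.comp ?_ (Primrec.snd.comp (Primrec.snd.comp Primrec.snd))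
      refine Primrec.pair ?_ (Primrec.pair ?_ (Primrec.pair ?_ (Primrec.const _)))
      · exact (list_cons.comp (Primrec.fst.comp Primrec.snd)
          (Primrec.fst.comp (Primrec.snd.comp Primrec.snd))).pair (Primrec.fst.comp Primrec.fst)
      · exact option_some.comp (Primrec.fst.comp Primrec.snd)
      · exact (Primrec.fst.comp (Primrec.snd.comp Primrec.snd)).pair (Primrec.fst.comp Primrec.fst)
  have hedge : Primrec fun p : (Bool × Fin N) × (List (Fin n × Bool) × List (A × Bool)) =>
      edgeMoves nx lm p.1.1 p.1.2 p.2.1 p.2.2 := by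
    have hr : Primrec fun p : (Bool × Fin N) × (List (Fin n × Bool) × List (A × Bool)) =>
        run nx lm p.1.2 p.2.1 :=
      hrun.comp ((Primrec.snd.comp Primrec.fst).pair (Primrec.fst.comp Primrec.snd))
    refine list_cons.comp ?_ ?_
    · refine Primrec.pair ((Primrec.const _).pair Primrec.fst) (Primrec.pair (Primrec.const _)
        (Primrec.pair ?_ (Primrec.snd.comp Primrec.snd)))
      exact (Primrec.snd.comp hr).pair ((Primrec.fst.comp Primrec.fst).pair (Primrec.fst.comp hr))
    · exact hsuf.comp (((Primrec.fst.comp Primrec.fst).pair (Primrec.fst.comp hr)).pair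
        (Primrec.snd.comp hr))
  refine list_flatMap (Primrec.const _) ?_
  refine list_cons.comp ?_ ?_
  · exact ((Primrec.const _).pair ((Primrec.const _).pair Primrec.snd)).pair
      ((Primrec.const _).pair (((Primrec.const _).pair ((Primrec.const _).pair Primrec.snd)).pair
        (Primrec.const _)))
  · refine list_flatMap Primrec.fst ?_
    refine list_append.comp ?_ ?_
    · exact hedge.comp (((Primrec.const false).pair (Primrec.snd.comp Primrec.fst)).pair Primrec.snd)
    · exact hedge.comp (((Primrec.const true).pair (Primrec.snd.comp Primrec.fst)).pair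
        ((primrec_invRev.comp (Primrec.fst.comp Primrec.snd)).pair
          (primrec_invRev.comp (Primrec.snd.comp Primrec.snd))))

end Transducer

section VirtuallyFree

/-- finitely many elements of a free group only involve finitely many letters -/
theorem finite_letters {ι K : Type*} [Finite K] (x : K → FreeGroup ι) :
    ∃ (r : ℕ) (j : Fin r → ι) (w : K → List (Fin r × Bool)), Function.Injective j ∧
      ∀ k, FreeGroup.map j (mk (w k)) = x k := by
  classical
  have : Fintype K := Fintype.ofFinite K
  set s : Finset ι := Finset.univ.biUnion fun k => ((toWord (x k)).map Prod.fst).toFinset with hs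
  have hmem : ∀ k, ∀ y ∈ toWord (x k), y.1 ∈ s := by
    intro k y hy
    rw [hs, Finset.mem_biUnion]
    exact ⟨k, Finset.mem_univ _, List.mem_toFinset.2 (List.mem_map.2 ⟨y, hy, rfl⟩)⟩
  refine ⟨s.card, fun i => (s.equivFin.symm i : ι),
    fun k => (toWord (x k)).pmap (fun y (hy : y.1 ∈ s) => (s.equivFin ⟨y.1, hy⟩, y.2))
      (hmem k), ?_, ?_⟩
  · intro a b hab
    exact s.equivFin.symm.injective (Subtype.ext hab)
  · intro k
    rw [FreeGroup.map.mk]
    conv_rhs => rw [← mk_toWord (x := x k)]
    congr 1
    rw [List.map_pmap]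
    have : ∀ (l : List (ι × Bool)) (hl : ∀ y ∈ l, y.1 ∈ s),
        l.pmap (fun y (hy : y.1 ∈ s) =>
          (((s.equivFin.symm (s.equivFin ⟨y.1, hy⟩) : s) : ι), y.2)) hl = l := by
      intro l hl
      induction l with
      | nil => rfl
      | cons y l ih => simp
    exact this _ _

/-- the word problem of a finitely generated virtually free group is solved by a transducer into
a free group of finite rank -/
theorem exists_data {H : Type u} [Group H] {n : ℕ} (h : Fin n → H)
    (hvf : ∃ F : Subgroup H, F.FiniteIndex ∧ IsFreeGroup F) :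
    ∃ (N r : ℕ) (nx : Fin N → Fin n × Bool → Fin N)
      (lm : Fin N → Fin n × Bool → List (Fin r × Bool)) (c0 : Fin N),
      ∀ u : List (Fin n × Bool),
        wordVal h u = 1 ↔ (run nx lm c0 u).1 = c0 ∧ mk (run nx lm c0 u).2 = 1 := by
  obtain ⟨F, hF, hfree⟩ := hvf
  have hfin : Finite (H ⧸ F) := Subgroup.finite_quotient_of_finiteIndex
  obtain ⟨N, ⟨e⟩⟩ := Finite.exists_equiv_fin (H ⧸ F)
  set t : H ⧸ F → H := Quotient.out with ht
  have htq : ∀ c : H ⧸ F, (QuotientGroup.mk (t c) : H ⧸ F) = c := fun c => Quotient.out_eq' c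
  have hinF : ∀ (c : H ⧸ F) (y : H), (t c)⁻¹ * y * t (y⁻¹ • c) ∈ F := by
    intro c y
    have h1 : (QuotientGroup.mk (y⁻¹ * t c) : H ⧸ F) = QuotientGroup.mk (t (y⁻¹ • c)) := by
      rw [htq]
      conv_rhs => rw [← htq c]
      rfl
    have h2 := QuotientGroup.eq.1 h1
    rwa [mul_inv_rev, inv_inv] at h2
  let b := IsFreeGroup.basis F
  set x : Fin N × (Fin n × Bool) → FreeGroup (IsFreeGroup.Generators F) := fun k =>
    b.repr ⟨_, hinF (e.symm k.1) (wordVal h [k.2])⟩ with hx
  obtain ⟨r, j, w, hj, hw⟩ := finite_letters x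
  let Θ : FreeGroup (Fin r) →* H :=
    (F.subtype.comp b.repr.symm.toMonoidHom).comp (FreeGroup.map j)
  have hΘ : Function.Injective Θ := by
    have h1 : Function.Injective (FreeGroup.map j) := FreeGroup.map_injective hj
    exact (F.subtype_injective.comp b.repr.symm.injective).comp h1
  set nx : Fin N → Fin n × Bool → Fin N := fun p y => e ((wordVal h [y])⁻¹ • e.symm p) with hnx
  set lm : Fin N → Fin n × Bool → List (Fin r × Bool) := fun p y => w (p, y) with hlm
  have hΘlm : ∀ p y, Θ (mk (lm p y)) =
      (t (e.symm p))⁻¹ * wordVal h [y] * t (e.symm (nx p y)) := by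
    intro p y
    change ((b.repr.symm (FreeGroup.map j (mk (w (p, y)))) : F) : H) = _
    rw [hw]
    simp [hx, hnx]
  have key : ∀ (u : List (Fin n × Bool)) (p : Fin N),
      e.symm (run nx lm p u).1 = (wordVal h u)⁻¹ • e.symm p ∧
      Θ (mk (run nx lm p u).2) =
        (t (e.symm p))⁻¹ * wordVal h u * t (e.symm (run nx lm p u).1) := by
    intro u
    induction u with
    | nil => intro p; simp [run, wordVal, ← one_eq_mk]
    | cons y u ih =>
      intro p
      obtain ⟨h1, h2⟩ := ih (nx p y)
      have hcons : wordVal h (y :: u) = wordVal h [y] * wordVal h u := by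
        rw [← wordVal_append]; rfl
      constructor
      · simp only [run]
        rw [h1, hcons, mul_inv_rev, mul_smul]
        simp [hnx]
      · simp only [run]
        rw [← mul_mk, _root_.map_mul, h2, hΘlm, hcons]
        group
  have : Nonempty (H ⧸ F) := ⟨QuotientGroup.mk 1⟩
  refine ⟨N, r, nx, lm, e (QuotientGroup.mk 1), fun u => ?_⟩
  obtain ⟨h1, h2⟩ := key u (e (QuotientGroup.mk 1))
  constructor
  · intro hu
    have h3 : (run nx lm (e (QuotientGroup.mk 1)) u).1 = e (QuotientGroup.mk 1) := by
      rw [hu] at h1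
      rw [← e.apply_symm_apply (run nx lm (e (QuotientGroup.mk 1)) u).1, h1]
      simp
    refine ⟨h3, ?_⟩
    rw [h3, hu] at h2
    apply hΘ
    rw [h2, _root_.map_one]
    simp
  · rintro ⟨h3, h4⟩
    rw [h3, h4, _root_.map_one] at h2
    have h5 : (t (e.symm (e (QuotientGroup.mk 1)))) * (t (e.symm (e (QuotientGroup.mk 1))))⁻¹
      = wordVal h u := by
      have := congrArg (fun z => t (e.symm (e (QuotientGroup.mk (1 : H)))) * z *
        (t (e.symm (e (QuotientGroup.mk 1))))⁻¹) h2
      simpa [mul_assoc] using this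
    rw [← h5]; simp

end VirtuallyFree

section Main

/-- A homomorphism extending the assignment exists iff all relations are respected. -/
theorem extends_iff {H : Type*} [Group H] {G : Type*} [Group G] {ι A : Type*} (h : ι → H)
    (x : A → G) (M : Submonoid H) (S : List (List (ι × Bool) × List (A × Bool)))
    (hM : M = Submonoid.closure {y | ∃ s ∈ S, y = wordVal h s.1}) :
    (∃ Φ : M →* G, ∀ s ∈ S, ∀ hs : wordVal h s.1 ∈ M, Φ ⟨wordVal h s.1, hs⟩ = wordVal x s.2) ↔
      ∀ us vs : List (List (ι × Bool) × List (A × Bool)), (∀ s ∈ us, s ∈ S) →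
        (∀ s ∈ vs, s ∈ S) →
        wordVal h (us.flatMap fun s => s.1) = wordVal h (vs.flatMap fun s => s.1) →
        wordVal x (us.flatMap fun s => s.2) = wordVal x (vs.flatMap fun s => s.2) := by
  subst hM
  have hgen : ∀ s ∈ S, wordVal h s.1 ∈
      Submonoid.closure {y | ∃ s ∈ S, y = wordVal h s.1} := by
    intro s hs
    exact Submonoid.subset_closure ⟨s, hs, rfl⟩
  constructor
  · rintro ⟨Φ, hΦ⟩
    have aux : ∀ us : List (List (ι × Bool) × List (A × Bool)), (∀ s ∈ us, s ∈ S) →
        ∃ hm : wordVal h (us.flatMap fun s => s.1) ∈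
            Submonoid.closure {y | ∃ s ∈ S, y = wordVal h s.1},
          Φ ⟨_, hm⟩ = wordVal x (us.flatMap fun s => s.2) := by
      intro us
      induction us with
      | nil =>
        intro _
        exact ⟨Submonoid.one_mem _, Φ.map_one⟩
      | cons s us ih =>
        intro hus
        obtain ⟨hm, hm'⟩ := ih fun y hy => hus y (List.mem_cons_of_mem _ hy)
        have hs := hus s (by simp)
        have hs1 := hgen s hs
        have e1 : wordVal h ((s :: us).flatMap fun s => s.1) =
            wordVal h s.1 * wordVal h (us.flatMap fun s => s.1) := by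
          rw [List.flatMap_cons, wordVal_append]
        have e2 : wordVal x ((s :: us).flatMap fun s => s.2) =
            wordVal x s.2 * wordVal x (us.flatMap fun s => s.2) := by
          rw [List.flatMap_cons, wordVal_append]
        refine ⟨by rw [e1]; exact Submonoid.mul_mem _ hs1 hm, ?_⟩
        rw [e2, ← hm', ← hΦ s hs hs1, ← _root_.map_mul]
        congr 1
        exact Subtype.ext e1
    intro us vs hus hvs heq
    obtain ⟨h1, h1'⟩ := aux us hus
    obtain ⟨h2, h2'⟩ := aux vs hvs
    rw [← h1', ← h2']
    congr 1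
    exact Subtype.ext heq
  · intro hrel
    have hex : ∀ y : Submonoid.closure {y | ∃ s ∈ S, y = wordVal h s.1}, ∃ us : List (List (ι × Bool) × List (A × Bool)), (∀ s ∈ us, s ∈ S) ∧
        wordVal h (us.flatMap fun s => s.1) = y := by
      rintro ⟨y, hy⟩
      induction hy using Submonoid.closure_induction with
      | mem y hy =>
        obtain ⟨s, hs, rfl⟩ := hy
        exact ⟨[s], by simpa using hs, by simp⟩
      | one => exact ⟨[], by simp, rfl⟩
      | mul y z _ _ ihy ihz =>
        obtain ⟨us, h1, h2⟩ := ihy
        obtain ⟨vs, h3, h4⟩ := ihz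
        refine ⟨us ++ vs, ?_, ?_⟩
        · intro s hs
          rcases List.mem_append.1 hs with h | h
          · exact h1 s h
          · exact h3 s h
        · rw [List.flatMap_append, wordVal_append]
          simp only at h2 h4 ⊢
          rw [h2, h4]
    choose w hw1 hw2 using hex
    have hval : ∀ (us : List (List (ι × Bool) × List (A × Bool)))
        (y : Submonoid.closure {y | ∃ s ∈ S, y = wordVal h s.1}), (∀ s ∈ us, s ∈ S) →
        wordVal h (us.flatMap fun s => s.1) = y →
        wordVal x ((w y).flatMap fun s => s.2) = wordVal x (us.flatMap fun s => s.2) := by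
      intro us y hus hy
      exact hrel (w y) us (hw1 y) hus ((hw2 y).trans hy.symm)
    refine ⟨⟨⟨fun y => wordVal x ((w y).flatMap fun s => s.2), ?_⟩, ?_⟩, ?_⟩
    · exact hval [] 1 (by simp) rfl
    · intro y z
      change wordVal x ((w (y * z)).flatMap fun s => s.2) =
        wordVal x ((w y).flatMap fun s => s.2) * wordVal x ((w z).flatMap fun s => s.2)
      rw [hval (w y ++ w z) (y * z) ?_ ?_, List.flatMap_append, wordVal_append]
      · intro s hs
        rcases List.mem_append.1 hs with h | h
        · exact hw1 y s h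
        · exact hw1 z s h
      · rw [List.flatMap_append, wordVal_append, hw2, hw2]; rfl
    · intro s hs hsM
      change wordVal x ((w ⟨wordVal h s.1, hsM⟩).flatMap fun s => s.2) = wordVal x s.2
      rw [hval [s] ⟨wordVal h s.1, hsM⟩ (by simpa using hs) (by simp)]
      simp

/-- The homomorphism problem for finitely generated submonoids of a finitely generated virtually
free group `H` and a target group `G` with decidable word problem is decidable, uniformly in
the submonoid. -/
theorem result :
    ∀ (H : Type u) [Group H] (n : ℕ) (h : Fin n → H),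
      Subgroup.closure (Set.range h) = ⊤ →
      (∃ F : Subgroup H, F.FiniteIndex ∧ IsFreeGroup F) →
    ∀ (G : Type v) [Group G] (A : Type w) [Primcodable A] (x : A → G),
      Subgroup.closure (Set.range x) = ⊤ →
      ComputablePred (fun l : List (A × Bool) => wordVal x l = 1) →
    ∃ D : List (List (Fin n × Bool) × List (A × Bool)) → Bool, Computable D ∧
      ∀ (M : Submonoid H) (S : List (List (Fin n × Bool) × List (A × Bool))),
        M = Submonoid.closure {y | ∃ s ∈ S, y = wordVal h s.1} →
        (D S = true ↔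
          ∃ Φ : M →* G, ∀ s ∈ S, ∀ hs : wordVal h s.1 ∈ M,
            Φ ⟨wordVal h s.1, hs⟩ = wordVal x s.2) := by
  intro H _ n h _ hvf G _ A _ x _ hx
  obtain ⟨N, r, nx, lm, c0, hdata⟩ := exists_data h hvf
  have h1 := good_computable (r := r) x hx
    (([], (false, c0)) : List (Fin r × Bool) × (Bool × Fin N)) ([], (true, c0))
  have h2 := computablePred_comp h1 (primrec_moves nx lm).to_comp
  obtain ⟨D, hD, hDp⟩ := ComputablePred.computable_iff.1 h2
  refine ⟨D, hD, fun M S hM => ?_⟩
  have h3 := congrFun hDp S
  rw [extends_iff h x M S hM, ← good_iff h x nx lm c0 hdata S]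
  exact (iff_of_eq h3).symm

end Main

end Pool.Agent.Results.MP_3ff21c_al.HomomorphismProblem
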